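import Pool.Agent.Work.MP_59f3ad_nt.US.H.Stmts

/-!
# Uniform Schneider, part N (captain helper44): the numerical side of the theorems A' and B'

`L(μ_p)` is replaced by its subfield `E` of degree `n` over `L`, `n` a divisor of `p - 1`,
`k = (p-1)/n = [K : E]`. Class number bounds uniform in `n`. Every docstring is a complete proof;
models: the files `US/H/I_*.lean`. Number fields are in `Type`.
-/

set_option autoImplicit false

open NumberField IsDedekindDomain Filter Topology

namespace Pool.Agent.Work.MP_59f3ad_nt.US.N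

open Pool.Agent.Work.MP_59f3ad_nt.US.H

/-- Above every prime `q ∋ p` of `L` there is exactly one prime of `E`, and it has the same norm. (This
is the conclusion of item `H.Rm`.) -/
def TotR (L E : Type) [Field L] [NumberField L] [Field E] [NumberField E] [Algebra L E] (p : ℕ) :
    Prop :=
  ∀ q : HeightOneSpectrum (𝓞 L), (p : 𝓞 L) ∈ q.asIdeal →
    (above L E q).ncard = 1 ∧ ∀ v ∈ above L E q, Ideal.absNorm v.asIdeal = Ideal.absNorm q.asIdeal

/-- Item Pv (MEDIUM). The product of the norms of the primes of `E` above `p` is `p ^ [L : ℚ]`.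
Proof. First `E = L`: `p 𝓞 L` is the product of the primes `q ∋ p`, each with exponent `1`
(`H.XRm.not_mem_sq`: `p ∉ q²`; `Ideal.finprod_heightOneSpectrum_factorization`, or
`UniqueFactorizationMonoid.normalizedFactors`, or `Ideal.sum_ramification_inertia` and
`N q = p ^ f`), and `N(p 𝓞 L) = |N_(L/ℚ) p| = p ^ [L : ℚ]`
(`Ideal.absNorm_span_singleton`, `Algebra.norm_algebraMap`). General `E`: `v ↦ v ∩ 𝓞 L` is a
bijection from the primes of `E` above `p` to those of `L` above `p`, which preserves the norms, by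
`TotR` (a set with `ncard = 1` has exactly one element). The set is finite, for instance because it is
the image of the set of the prime divisors of `p 𝓞 L`. -/
def Pv : Prop :=
  ∀ (L E : Type) [Field L] [NumberField L] [Field E] [NumberField E] [Algebra L E] (p : ℕ)
    [Fact p.Prime], ¬ (p : ℤ) ∣ discr L → TotR L E p →
    ∃ T : Finset (HeightOneSpectrum (𝓞 E)), (∀ v, v ∈ T ↔ (p : 𝓞 E) ∈ v.asIdeal) ∧
      ∏ v ∈ T, Ideal.absNorm v.asIdeal = p ^ Module.finrank ℚ L

/-- Item Tr (EASY-MEDIUM). Total ramification in `B/A`, `L ⊂ A ⊂ B`.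
Proof. `v` a prime of `B` above `p`, `w = v ∩ 𝓞 A`, `q = v ∩ 𝓞 L`. By `TotR L B p`, `v` is the only
prime of `B` above `q`, so the only one above `w`; `N v = N q = N w` (`TotR L A p` for `w`), so the
inertia degree of `v` over `w` is `1` (`Ideal.absNorm_eq_pow_inertiaDeg'_of_liesOver` as in
`US/H/I_Rm.lean`), and `w 𝓞 B = v ^ e` with `N(w 𝓞 B) = (N w) ^ [B : A]` (`Ideal.absNorm_algebraMap`, see
`XRm.key`), so `e = [B : A]`. -/
def Tr : Prop :=
  ∀ (L A B : Type) [Field L] [NumberField L] [Field A] [NumberField A] [Field B] [NumberField B]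
    [Algebra L A] [Algebra A B] [Algebra L B] [IsScalarTower L A B] (p : ℕ) [Fact p.Prime],
    TotR L A p → TotR L B p → ∀ v : HeightOneSpectrum (𝓞 B), (p : 𝓞 B) ∈ v.asIdeal →
    (v.asIdeal.under (𝓞 A)).map (algebraMap (𝓞 A) (𝓞 B)) = v.asIdeal ^ Module.finrank A B

/-- Item Rd (EASY-MEDIUM). Lower bound for the different.
Proof. `m = [B : A]`, `T` from `Pv` for `B`. For `v ∈ T`, `v ^ m` divides `(v ∩ 𝓞 A) 𝓞 B` by `Tr`, so
`v ^ (m-1)` divides the different (`pow_sub_one_dvd_differentIdeal`). The `v ^ (m-1)`, `v ∈ T`, are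
pairwise coprime (different maximal ideals), so their product divides the different
(`Finset.prod_dvd_of_isRelPrime` or `Finset.prod_dvd_of_coprime`), and
`N(∏ v ^ (m-1)) = (∏ N v) ^ (m-1) = p ^ ([L:ℚ] (m-1))` divides the norm of the different
(`Ideal.absNorm_dvd_absNorm_of_le` or `map_dvd`). -/
def Rd : Prop :=
  Pv → Tr →
  ∀ (L A B : Type) [Field L] [NumberField L] [Field A] [NumberField A] [Field B] [NumberField B]
    [Algebra L A] [Algebra A B] [Algebra L B] [IsScalarTower L A B] (p : ℕ) [Fact p.Prime],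
    ¬ (p : ℤ) ∣ discr L → TotR L A p → TotR L B p →
    p ^ ((Module.finrank A B - 1) * Module.finrank ℚ L) ∣
      Ideal.absNorm (differentIdeal (𝓞 A) (𝓞 B))

/-- Item De (EASY). Degree and discriminant of the intermediate fields `E` of `K = L(μ_p)`.
Proof. `k = [K : E]`, `n = [E : L]`, `n k = p - 1` (`Dc`, tower law), `d = [L : ℚ]`, `D = |discr L|`.
`H.Rm` gives `TotR L L p`, `TotR L E p`, `TotR L K p`. By
`natAbs_discr_eq_absNorm_differentIdeal_mul_natAbs_discr_pow` and `Rd` for `L ⊂ L ⊂ E`: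
`|discr E| ≥ p ^ ((n-1) d) D ^ n`. The same for `L ⊂ E ⊂ K`:
`|discr K| ≥ p ^ ((k-1) d) |discr E| ^ k`, and `|discr K| = D ^ (n k) p ^ ((n k - 1) d)` (`Dc`), so
`|discr E| ^ k ≤ (D ^ n p ^ ((n-1) d)) ^ k`. So equality holds (`k ≥ 1`). -/
def De : Prop :=
  Dc → Rm → Rd →
  ∀ (L E K : Type) [Field L] [NumberField L] [Field E] [NumberField E] [Field K] [NumberField K]
    [Algebra L E] [Algebra E K] [Algebra L K] [IsScalarTower L E K] (p : ℕ) [Fact p.Prime], p ≠ 2 →
    IsCyclotomicExtension {p} L K → ¬ (p : ℤ) ∣ discr L →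
    Module.finrank L E * Module.finrank E K = p - 1 ∧
    Module.finrank ℚ E = Module.finrank L E * Module.finrank ℚ L ∧
    (discr E).natAbs = (discr L).natAbs ^ Module.finrank L E *
      p ^ ((Module.finrank L E - 1) * Module.finrank ℚ L)

/-- Item AsN (EASY-MEDIUM). Asymptotics of A', uniform in `n`. Copy `US/H/I_As.lean` or
`US/T/I_As3.lean`.
Proof. With `s = 1 + 1/log p`, `s/(s-1) = 1 + log p`:
`k log p ≤ s/2 (n log D + (n-1) d log p) + n d log(1 + log p)`. Divide by `log p`: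
`k ≤ (n-1) d/2 + n ((1 + 1/log p)/2 (log D/log p) + d/(2 log p) + d log(1 + log p)/log p)`, and the
bracket tends to `0` as `p` tends to infinity; it does not depend on `n`. -/
def AsN : Prop :=
  ∀ (d D : ℕ), 0 < d → 0 < D → ∀ ε : ℝ, 0 < ε → ∃ p₀ : ℕ, ∀ p : ℕ, p.Prime → p₀ ≤ p →
    ∀ n k h : ℕ, 0 < n → 0 < h → p ^ k ∣ h →
    (∀ s : ℝ, 1 < s → (h : ℝ) ≤
      (√((D ^ n * p ^ ((n - 1) * d) : ℕ) : ℝ)) ^ s * (s / (s - 1)) ^ (n * d)) →
    (k : ℝ) ≤ (((n : ℝ) - 1) / 2 + ε * n) * d

/-- Item TAN (EASY). Theorem A', the class number. Copy `US/H/I_TA.lean` with `De` in place of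
`Dc`. -/
def TAN : Prop :=
  Eul → Ov → Cl → Dc → Rm → Rd → De → AsN → ∀ (L : Type) [Field L] [NumberField L] (ε : ℝ), 0 < ε →
    ∃ p₀ : ℕ, ∀ p : ℕ, p.Prime → p₀ ≤ p → ∀ (E K : Type) [Field E] [NumberField E] [Field K]
      [NumberField K] [Algebra L E] [Algebra E K] [Algebra L K] [IsScalarTower L E K],
      IsCyclotomicExtension {p} L K → ∀ k : ℕ, p ^ k ∣ classNumber E →
        (k : ℝ) ≤ (((Module.finrank L E : ℝ) - 1) / 2 + ε * Module.finrank L E) *
          Module.finrank ℚ L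

/-! ### The splitting in `E` -/

/-- Item Cy (EASY-MEDIUM). The intersection of two subgroups of a finite cyclic group.
Proof. `a = |A|`, `b = |B|`, `g = gcd(a, b)`, `G` cyclic of order `N`. `A ∩ B` has order dividing `a` and
`b` (Lagrange, `Subgroup.card_dvd_of_le`), so dividing `g`. The set `{x | x ^ g = 1}` has at least `g`
elements, because `g ∣ N` (`G` cyclic: the powers of `γ ^ (N/g)`, `γ` a generator), and it is contained
in `A`: `{x | x ^ a = 1}` has at most `a` elements (`IsCyclic.card_pow_eq_one_le`) and contains `A`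
(which has `a` elements), so it equals `A`; and `x ^ g = 1` implies `x ^ a = 1`. The same for `B`. So
`A ∩ B` has at least `g` elements. (Or look for the statement in Mathlib: subgroups of a cyclic group of
the same order are equal, `IsCyclic.exists_ofOrder_eq_natCard`, `Subgroup.eq_of_card...`.) -/
def Cy : Prop :=
  ∀ (G : Type) [Group G] [Finite G] [IsCyclic G] (A B : Subgroup G),
    Nat.card (A ⊓ B : Subgroup G) = Nat.gcd (Nat.card A) (Nat.card B)

/-- Item CyG (EASY). `L(μ_p)/L` is a cyclic Galois extension.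
Proof. `IsCyclotomicExtension.isGalois`; `IsPrimitiveRoot.autToPow_injective` embeds the Galois group
into `(ZMod p)ˣ`, which is cyclic (`isCyclic_of_injective`). Finite dimensional as `K`, `L` are number
fields. -/
def CyG : Prop :=
  ∀ (L K : Type) [Field L] [NumberField L] [Field K] [NumberField K] [Algebra L K] (p : ℕ)
    [Fact p.Prime], IsCyclotomicExtension {p} L K → IsGalois L K ∧ IsCyclic Gal(K/L)

/-- Item Sg (MEDIUM). Splitting in an intermediate field `E` of a cyclic extension `K/L`, at a prime `q`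
unramified in `K`.
Proof. `G = Gal(K/L)`, `H = Gal(K/E)` mapped into `G` (`AlgEquiv.restrictScalarsHom L`, injective; its
range has `[K:E]` elements), `N = [K:L]`, `k = [K:E]`. `G` acts transitively on the primes of `K` above
`q` (`Ideal.exists_smul_eq_of_isGaloisGroup`, `Ideal.isPretransitive_of_isGaloisGroup` or similar; see
`IsGaloisGroup` and `Ideal.primesOver`), so the stabilizer `D` of `v` has `N/ncard = f₀` elements
(orbit-stabilizer). Let `w = v ∩ 𝓞 E`. `H` acts transitively on the primes of `K` above `w`, the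
stabilizer of `v` in `H` is `D ∩ H`, of order `gcd(f₀, k)` by `Cy`; so `w` has `g_w = k/gcd(f₀, k)`
primes above it. All ramification indices of `K/L` at `q` are `1`: `∑ e f = N`
(`Ideal.sum_ramification_inertia`), there are `ncard` primes, all with `f = f₀` (`N v = (N q) ^ f`
determines `f`, as `N q ≥ 2`), and `ncard f₀ = N`. So the indices for `K/E` and `E/L` are `1` too
(multiplicativity). So `g_w f(v/w) = k`, `f(v/w) = gcd(f₀, k)`, and
`f(v/w) f(w/q) = f₀` (multiplicativity, or norms) gives `f(w/q) = f`. The number of the `w` above `q`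
times `f` is `[E:L]` (`∑ e f`, for `E/L`). -/
def Sg : Prop :=
  Cy → ∀ (L E K : Type) [Field L] [NumberField L] [Field E] [NumberField E] [Field K]
    [NumberField K] [Algebra L E] [Algebra E K] [Algebra L K] [IsScalarTower L E K]
    [IsGalois L K] [IsCyclic Gal(K/L)] (q : HeightOneSpectrum (𝓞 L)) (f₀ f : ℕ), 0 < f₀ →
    (above L K q).ncard * f₀ = Module.finrank L K →
    (∀ v ∈ above L K q, Ideal.absNorm v.asIdeal = Ideal.absNorm q.asIdeal ^ f₀) →
    f * Nat.gcd f₀ (Module.finrank E K) = f₀ →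
    (above L E q).ncard * f = Module.finrank L E ∧
      ∀ w ∈ above L E q, Ideal.absNorm w.asIdeal = Ideal.absNorm q.asIdeal ^ f

/-- The conclusion of item `Sg` for the fields `L ⊂ E` in `K = L(μ_p)`. -/
def SgP (L E : Type) [Field L] [NumberField L] [Field E] [NumberField E] [Algebra L E] (p k : ℕ) :
    Prop :=
  ∀ (q : HeightOneSpectrum (𝓞 L)) (a : (ZMod p)ˣ) (f : ℕ),
    (a : ZMod p) = (Ideal.absNorm q.asIdeal : ZMod p) → f * Nat.gcd (orderOf a) k = orderOf a →
    (above L E q).ncard * f = Module.finrank L E ∧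
      ∀ w ∈ above L E q, Ideal.absNorm w.asIdeal = Ideal.absNorm q.asIdeal ^ f

/-- Item SgQ (EASY). `SgP` for the intermediate fields of `L(μ_p)`.
Proof. `Sp1`, `CyG` and `Sg` with `f₀ = orderOf a` (`orderOf a` divides `p - 1`,
`ZMod.card_units`). -/
def SgQ : Prop :=
  KD → Sp1 → Cy → CyG → Sg →
  ∀ (L E K : Type) [Field L] [NumberField L] [Field E] [NumberField E] [Field K] [NumberField K]
    [Algebra L E] [Algebra E K] [Algebra L K] [IsScalarTower L E K] (p : ℕ) [Fact p.Prime], p ≠ 2 →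
    IsCyclotomicExtension {p} L K → Module.finrank L K = p - 1 →
    SgP L E p (Module.finrank E K)

/-- Item Or (EASY-MEDIUM). Orders of powers.
Proof. `m = orderOf a`, `orderOf (a ^ k) = m/gcd(m, k)` (`orderOf_pow`). This is the first claim. Let
`k` be odd. If `m` is even, `gcd(m, 2 k) = 2 gcd(m, k)` (`k` odd: `m = 2 m'`,
`gcd(2 m', 2 k) = 2 gcd(m', k)` and `gcd(2 m', k) = gcd(m', k)`) and `m/gcd(m, k)` is even
(`2 gcd(m, k)` divides `m`); if `m` is odd, `gcd(m, 2 k) = gcd(m, k)` and `m/gcd(m, k)` is odd. -/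
def Or : Prop :=
  ∀ (p : ℕ) [Fact p.Prime] (a : (ZMod p)ˣ) (k : ℕ), 0 < k →
    orderOf (a ^ k) * Nat.gcd (orderOf a) k = orderOf a ∧
    (Odd k → (if Even (orderOf (a ^ k)) then orderOf (a ^ k) / 2 else orderOf (a ^ k)) *
      Nat.gcd (orderOf a) (2 * k) = orderOf a)

/-- Item ZfN (MEDIUM). Factorisation of the `k`-th power of `ζ_E/ζ_F`, `[E:F] = 2`, `k` odd. Copy
`US/H/I_Zf.lean`.
Proof. There, for every prime `q` of `L` not above `p` with `a = N q`, the local factors of `E` and `F` are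
now (by `hE`, `hF`, `Or`) `(1 - X^f)^(-n/f)` with `f = orderOf (a^k)` and `(1 - X^f')^(-(n/2)/f')` with
`f' = f/2` or `f`. Their `k`-th powers are, by `Ch1` and `Ch2` applied to `a ^ k`
(`n k = p - 1`), the products of the `(1 - χ(a^k) X)⁻¹` over all `χ` and over the even `χ`, and
`χ(a^k) = (χ^k)(a)`. For `q` above `p` the local factors of `E` and `F` agree (`TotR`), and
`(χ^k)(0) = 0` (`k ≥ 1`). The Euler products of `zK E s ^ k`: `HasProd` is compatible with powers
(`HasProd.pow` or induction with `HasProd.mul`). -/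
def ZfN : Prop :=
  EG → Sm → Eul → Ov → Ch1 → Ch2 → Or →
  ∀ (L F E : Type) [Field L] [NumberField L] [Field F] [NumberField F] [Field E] [NumberField E]
    [Algebra L F] [Algebra L E] (p : ℕ) [Fact p.Prime], p ≠ 2 → ∀ k n : ℕ, Odd k →
    n * k = p - 1 → Module.finrank L E = n → Module.finrank L F * 2 = n →
    SgP L E p k → SgP L F p (2 * k) → TotR L E p → TotR L F p →
    ∀ s : ℝ, 1 < s → ((zK E s : ℝ) : ℂ) ^ k =
      ((zK F s : ℝ) : ℂ) ^ k * ∏ χ ∈ oddC p, LI L (chN L p (χ ^ k)) s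

/-- Item KpN (EASY-MEDIUM). Comparison of the residues. Copy `US/H/I_Kp.lean`.
Proof. `B₀ = C (1 + log p)`. There are `(p-1)/2 = k (n/2)` odd characters (`XKp.card_eq`,
`XKp.card_add`; `n` is even because `k` is odd and `p - 1` is even), and `χ ^ k ≠ 1` for odd `χ`, as
`(χ^k)(-1) = (-1)^k = -1`. So `(zK E s) ^ k ≤ (zK F s) ^ k B₀ ^ (k (n/2)) = (zK F s B₀ ^ (n/2)) ^ k`
and, all numbers being `≥ 0`, `zK E s ≤ zK F s B₀ ^ (n/2)` (`pow_le_pow_iff_left₀`). Multiply by
`s - 1` and let `s` tend to `1`. -/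
def KpN : Prop :=
  ∀ (F E : Type) [Field F] [NumberField F] [Field E] [NumberField E] (p : ℕ) [Fact p.Prime]
    (C : ℝ) (Lf : DirichletCharacter ℂ p → ℝ → ℂ) (k n : ℕ), p ≠ 2 → 0 < C → Odd k →
    n * k = p - 1 →
    (∀ (M : Type) [Field M] [NumberField M],
      Tendsto (fun s : ℝ => (s - 1) * zK M s) (𝓝[>] 1) (𝓝 (dedekindZeta_residue M))) →
    (∀ s : ℝ, 1 < s → ((zK E s : ℝ) : ℂ) ^ k =
      ((zK F s : ℝ) : ℂ) ^ k * ∏ χ ∈ oddC p, Lf (χ ^ k) s) →
    (∀ χ : DirichletCharacter ℂ p, χ ≠ 1 → ∀ s : ℝ, 1 < s → s ≤ 2 →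
      ‖Lf χ s‖ ≤ C * (1 + Real.log p)) →
    dedekindZeta_residue E ≤ (C * (1 + Real.log p)) ^ (n / 2) * dedekindZeta_residue F

/-- Item RLN (MEDIUM). The intermediate fields `E` of `K = L(μ_p)` with `[K:E]` odd are CM fields, for `L`
totally real.
Proof. By `H.RL` (landed, `US/H/I_RL.lean`) `K` is a CM field; `c = complexConj K`, restricted to `L`
(which is contained in `maximalRealSubfield K`), is an element of `Gal(K/L)` of order two, with
`conj (Φ x) = Φ (c x)` for every embedding `Φ` of `K` (`complexEmbedding_complexConj`). `Gal(K/L)` is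
abelian, so `E/L` is Galois and `c` maps `E` to `E` (`IntermediateField` or
`AlgEquiv.restrictNormal`); let `c_E` be the restriction, `c_E² = 1`. `c_E ≠ 1`: otherwise
`c ∈ Gal(K/E)`, a group of odd order `[K:E]`, but `c` has order `2`. For every embedding `φ` of `E`,
extended to `Φ` of `K`: `conj (φ x) = φ (c_E x)`. So `maximalRealSubfield E` is the fixed field of
`c_E` (`φ` is injective), `[E : maximalRealSubfield E] = 2` (Artin,
`IntermediateField.finrank_fixedField_eq_card` or `FixedPoints`), and no `φ` is real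
(otherwise `c_E = 1`): `IsTotallyComplex E`. Last claim: `H.XRL.base_mem`. -/
def RLN : Prop :=
  RL → ∀ (L E K : Type) [Field L] [NumberField L] [Field E] [NumberField E] [Field K]
    [NumberField K] [Algebra L E] [Algebra E K] [Algebra L K] [IsScalarTower L E K] (p : ℕ)
    [Fact p.Prime], p ≠ 2 → IsCyclotomicExtension {p} L K → IsTotallyReal L →
    Odd (Module.finrank E K) →
    IsCMField E ∧ (∀ x : L, algebraMap L E x ∈ maximalRealSubfield E)

/-- Item DfN (EASY). The relative different of `E/F`, `[E:F] = 2`.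
Proof. `De` for `E` and for `F`: `|discr E| = D ^ n p ^ ((n-1) d)`, `|discr F| = D ^ (n/2) p ^ ((n/2-1) d)`
with `n = [E:L] = 2 [F:L]`; and `|discr E| = N(𝔇) |discr F| ^ 2`. So
`N(𝔇) = p ^ ((n - 1) d - (n - 2) d) = p ^ d` (cancel `|discr F| ^ 2 ≠ 0`). -/
def DfN : Prop :=
  Dc → Rm → Rd → De →
  ∀ (L F E K : Type) [Field L] [NumberField L] [Field F] [NumberField F] [Field E] [NumberField E]
    [Field K] [NumberField K] [Algebra L F] [Algebra F E] [Algebra L E] [Algebra E K] [Algebra L K]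
    [Algebra F K] [IsScalarTower L F E] [IsScalarTower L E K] [IsScalarTower L F K] (p : ℕ)
    [Fact p.Prime], p ≠ 2 → IsCyclotomicExtension {p} L K → ¬ (p : ℤ) ∣ discr L →
    Module.finrank F E = 2 →
    Ideal.absNorm (differentIdeal (𝓞 F) (𝓞 E)) = p ^ Module.finrank ℚ L

/-- Item AsB (EASY-MEDIUM). Asymptotics of B', uniform in `n`. Copy `US/H/I_As2.lean`.
Proof. `p^k h' ≤ 2 h` and the bound for `h` give
`p^k ≤ 4 w (D^n p^((n-1) d) p^d)^(1/4) (C (1 + log p))^(n/2)` with `w ≤ 2 (n d)²`. Take logarithms and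
divide by `log p`: `k ≤ n d/4 + n log D/(4 log p) + (n/2) (|log C| + log(1 + log p))/log p
+ (log 8 + 2 log(n d))/log p`, and `log 8 + 2 log (n d) ≤ n (log 8 + 2 log d + 2)`
(`log n ≤ n`, `n ≥ 1`): all terms except the first are together at most `n ε` times `d` for `p ≥ p₀`,
`p₀` independent of `n`. -/
def AsB : Prop :=
  ∀ (d D : ℕ) (C : ℝ), 0 < d → 0 < D → 0 < C → ∀ ε : ℝ, 0 < ε → ∃ p₀ : ℕ, ∀ p : ℕ, p.Prime →
    p₀ ≤ p → ∀ n k h h' w δ : ℕ, 0 < n → 0 < h' → p ^ k * h' ≤ 2 * h → w ≤ 2 * (n * d) ^ 2 →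
    δ ≤ p ^ d →
    (h : ℝ) ≤ 2 * w * (((D ^ n * p ^ ((n - 1) * d) : ℕ) : ℝ) * (δ : ℝ)) ^ (1 / 4 : ℝ) *
      (C * (1 + Real.log p)) ^ (n / 2) * h' →
    (k : ℝ) ≤ (1 / 4 + ε) * n * d

/-- Item TBN (MEDIUM). Theorem B', the relative class number. Copy `US/H/I_TB.lean`.
Proof. As there. `C, q₀` from `LB`, `p₀` from `AsB`, enlarged such that `p₀ ≥ q₀`,
`p₀ > |discr L|`, `p₀ > 2`. `F = maximalRealSubfield E`, `L` acts on `F` by `RLN` (as in `XTB.toF`), and
`F` on `K` through `E`; `[E:F] = 2`. `De` for `E`; `SgQ` for `E` and for `F`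
(`[K:F] = 2 [K:E]`), `Rm` for `E` and `F`, so `ZfN`; `Kp` becomes `KpN`, `Df` becomes `DfN`, `Hr`, `To`,
`KR` for `E` as there; conclude with `AsB`. -/
def TBN : Prop :=
  Eul → Ov → Sm → EG → Rs → Dc → Ch1 → Ch2 → KD → Sp1 → Rm → LB → RL → Hr → To → KR →
  Rd → De → Cy → CyG → Sg → SgQ → Or → ZfN → KpN → RLN → DfN → AsB →
  ∀ (L : Type) [Field L] [NumberField L], IsTotallyReal L → ∀ ε : ℝ, 0 < ε →
    ∃ p₀ : ℕ, ∀ p : ℕ, p.Prime → p₀ ≤ p → ∀ (E K : Type) [Field E] [NumberField E] [Field K]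
      [NumberField K] [Algebra L E] [Algebra E K] [Algebra L K] [IsScalarTower L E K],
      IsCyclotomicExtension {p} L K → Odd (Module.finrank E K) → ∀ _ : IsCMField E, ∀ (k : ℕ)
      (H : Subgroup (ClassGroup (𝓞 E))), H.index = p ^ k →
      (∀ (I : Ideal (𝓞 (maximalRealSubfield E))) (J : nonZeroDivisors (Ideal (𝓞 E))),
        (J : Ideal (𝓞 E)) = I.map (algebraMap (𝓞 (maximalRealSubfield E)) (𝓞 E)) →
        ClassGroup.mk0 J ∈ H) →
      (k : ℝ) ≤ (1 / 4 + ε) * Module.finrank L E * Module.finrank ℚ L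

end Pool.Agent.Work.MP_59f3ad_nt.US.N
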