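import Pool.Agent.Work.MP_59f3ad_nt.US.N.Stmts

/-!
# Uniform Schneider, part N, item AsN: asymptotics of A'
-/

set_option autoImplicit false

open Filter Topology

namespace Pool.Agent.Work.MP_59f3ad_nt.US.N

namespace XAsN

theorem lim (d D : ℝ) : Tendsto (fun L : ℝ => (1 + 1 / L) / 2 * (Real.log D / L) +
    d / 2 * (1 / L) + d * (Real.log (1 + L) / L)) atTop (𝓝 0) := by
  have h1 : Tendsto (fun L : ℝ => 1 / L) atTop (𝓝 0) := by
    simpa using tendsto_inv_atTop_zero (𝕜 := ℝ)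
  have h2 : Tendsto (fun L : ℝ => Real.log D / L) atTop (𝓝 0) :=
    tendsto_const_nhds.div_atTop tendsto_id
  have h3 : Tendsto (fun L : ℝ => Real.log (1 + L) / L) atTop (𝓝 0) := by
    have h := (Real.tendsto_pow_log_div_mul_add_atTop 1 (-1) 1 one_ne_zero).comp
      (tendsto_atTop_add_const_left atTop (1 : ℝ) tendsto_id)
    refine h.congr fun L => ?_
    simp only [Function.comp_apply, id_eq, pow_one, one_mul]
    congr 1
    ring
  have h4 := ((((h1.const_add 1).div_const 2).mul h2).add (h1.const_mul (d / 2))).add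
    (h3.const_mul d)
  have h5 : (1 + 0) / 2 * 0 + d / 2 * 0 + d * 0 = (0 : ℝ) := by ring
  rw [h5] at h4
  exact h4

end XAsN

theorem prf_AsN : AsN := by
  intro d D hd hD ε hε
  have hdr : (0 : ℝ) < d := by exact_mod_cast hd
  have hlt : (0 : ℝ) < ε * d := by positivity
  have hev := (XAsN.lim (d : ℝ) (D : ℝ)).eventually (gt_mem_nhds hlt)
  have hev2 := (Real.tendsto_log_atTop.comp (tendsto_natCast_atTop_atTop (R := ℝ))).eventually hev
  obtain ⟨p₀, hp₀⟩ := eventually_atTop.1 (hev2.and (eventually_ge_atTop 3))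
  refine ⟨p₀, fun p hp hpp n k h hn hh hk hs => ?_⟩
  obtain ⟨h1, h2⟩ := hp₀ p hpp
  simp only [Function.comp_apply] at h1
  have hp3 : (3 : ℝ) ≤ p := by exact_mod_cast h2
  have hp0 : (0 : ℝ) < p := by linarith
  obtain ⟨L, hL⟩ : ∃ L : ℝ, L = Real.log p := ⟨_, rfl⟩
  rw [← hL] at h1
  have hL0 : 0 < L := by
    rw [hL]
    exact Real.log_pos (by linarith)
  have hs1 := hs (1 + 1 / L) (by have := one_div_pos.2 hL0; linarith)
  have hsd : (1 + 1 / L) / (1 + 1 / L - 1) = 1 + L := by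
    field_simp
    ring
  rw [hsd] at hs1
  have hDr : (1 : ℝ) ≤ D := by exact_mod_cast hD
  have hnr : (1 : ℝ) ≤ n := by exact_mod_cast hn
  have hn1 : ((n - 1 : ℕ) : ℝ) = (n : ℝ) - 1 := by
    rw [Nat.cast_sub hn]
    simp
  have hX : 0 < ((D ^ n * p ^ ((n - 1) * d) : ℕ) : ℝ) := by
    push_cast
    positivity
  have hk1 : (p : ℝ) ^ k ≤ h := by exact_mod_cast Nat.le_of_dvd hh hk
  have hlog := Real.log_le_log (pow_pos hp0 k) (hk1.trans hs1)
  rw [Real.log_pow, ← hL, Real.log_mul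
    (Real.rpow_pos_of_pos (Real.sqrt_pos.2 hX) _).ne' (pow_pos (by linarith) _).ne',
    Real.log_rpow (Real.sqrt_pos.2 hX), Real.log_sqrt hX.le, Real.log_pow] at hlog
  have hXl : Real.log ((D ^ n * p ^ ((n - 1) * d) : ℕ) : ℝ) =
      n * Real.log D + ((n : ℝ) - 1) * d * L := by
    rw [Nat.cast_mul, Nat.cast_pow, Nat.cast_pow,
      Real.log_mul (pow_pos (by linarith) _).ne' (pow_pos hp0 _).ne', Real.log_pow,
      Real.log_pow, ← hL, Nat.cast_mul, hn1]
  rw [hXl, Nat.cast_mul] at hlog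
  have hfin : (k : ℝ) * L ≤ (((n : ℝ) - 1) / 2 * d) * L + n * L * ((1 + 1 / L) / 2 *
      (Real.log D / L) + d / 2 * (1 / L) + d * (Real.log (1 + L) / L)) := by
    have e5 : (((n : ℝ) - 1) / 2 * d) * L + n * L * ((1 + 1 / L) / 2 *
      (Real.log D / L) + d / 2 * (1 / L) + d * (Real.log (1 + L) / L)) =
        (1 + 1 / L) * ((n * Real.log D + ((n : ℝ) - 1) * d * L) / 2) +
          n * d * Real.log (1 + L) + d / 2 := by
      field_simp
      ring
    rw [e5]
    have : (0 : ℝ) ≤ d / 2 := by positivity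
    linarith
  have hfin2 : (k : ℝ) * L ≤ (((n : ℝ) - 1) / 2 * d) * L + n * L * (ε * d) := by
    have := mul_le_mul_of_nonneg_left h1.le (by positivity : (0 : ℝ) ≤ n * L)
    linarith
  have : (k : ℝ) * L ≤ ((((n : ℝ) - 1) / 2 + ε * n) * d) * L := by linarith
  exact le_of_mul_le_mul_right this hL0

end Pool.Agent.Work.MP_59f3ad_nt.US.N
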