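import Pool.Agent.Work.MP_59f3ad_nt.US.N.Stmts

/-!
Uniform Schneider, part N, item Cy: the intersection of two subgroups of a finite cyclic group.
-/

set_option autoImplicit false

namespace Pool.Agent.Work.MP_59f3ad_nt.US.N

namespace XCy

theorem comm_case (G : Type) [CommGroup G] [Finite G] [IsCyclic G] (A B : Subgroup G) :
    Nat.card (A ⊓ B : Subgroup G) = Nat.gcd (Nat.card A) (Nat.card B) := by
  have key : ∀ C : Subgroup G, C = (powMonoidHom (Nat.card C) : G →* G).ker := by
    intro C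
    refine Subgroup.eq_of_le_of_card_ge ?_ ?_
    · intro x hx
      rw [MonoidHom.mem_ker]
      show x ^ Nat.card C = 1
      exact orderOf_dvd_iff_pow_eq_one.1 (Subgroup.orderOf_dvd_natCard C hx)
    · rw [IsCyclic.card_powMonoidHom_ker]
      exact Nat.gcd_le_right _ Nat.card_pos
  have h : A ⊓ B = (powMonoidHom (Nat.gcd (Nat.card A) (Nat.card B)) : G →* G).ker := by
    ext x
    have hA : x ∈ A ↔ x ^ Nat.card A = 1 := by
      conv_lhs => rw [key A]
      rw [MonoidHom.mem_ker]
      rfl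
    have hB : x ∈ B ↔ x ^ Nat.card B = 1 := by
      conv_lhs => rw [key B]
      rw [MonoidHom.mem_ker]
      rfl
    rw [Subgroup.mem_inf, hA, hB, MonoidHom.mem_ker]
    show _ ↔ x ^ Nat.gcd (Nat.card A) (Nat.card B) = 1
    rw [← orderOf_dvd_iff_pow_eq_one, ← orderOf_dvd_iff_pow_eq_one, ← orderOf_dvd_iff_pow_eq_one,
      Nat.dvd_gcd_iff]
  rw [h, IsCyclic.card_powMonoidHom_ker]
  exact Nat.gcd_eq_right ((Nat.gcd_dvd_left _ _).trans (Subgroup.card_subgroup_dvd_card A))

end XCy

theorem prf_Cy : Cy := by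
  intro G _ _ _ A B
  let _ : CommGroup G := IsCyclic.commGroup
  exact XCy.comm_case G A B

end Pool.Agent.Work.MP_59f3ad_nt.US.N
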