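import Pool.Agent.Work.MP_59f3ad_nt.US.N.Stmts

set_option autoImplicit false

/-!
# Item CyG: the cyclotomic extension of prime level is cyclic
-/

namespace Pool.Agent.Work.MP_59f3ad_nt.US.N

theorem prf_CyG : CyG := by
  intro L K _ _ _ _ _ p hp hc
  haveI : NeZero p := ⟨hp.out.ne_zero⟩
  haveI : NeZero ((p : ℕ) : L) := ⟨by exact_mod_cast hp.out.ne_zero⟩
  have hG : IsGalois L K := IsCyclotomicExtension.isGalois {p} L K
  refine ⟨hG, ?_⟩
  have hz := IsCyclotomicExtension.zeta_spec p L K
  exact isCyclic_of_injective (hz.autToPow L) (hz.autToPow_injective L)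

end Pool.Agent.Work.MP_59f3ad_nt.US.N
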