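import Pool.Agent.Work.MP_59f3ad_nt.US.N.Stmts

/-!
# Uniform Schneider, part N, item De: degree and discriminant of the intermediate fields
-/

set_option autoImplicit false

open NumberField IsDedekindDomain

namespace Pool.Agent.Work.MP_59f3ad_nt.US.N

open Pool.Agent.Work.MP_59f3ad_nt.US.H

namespace XDe

/-- the arithmetic of the comparison -/
theorem arith (n k d D x y u w z p : ℕ) (hp : 0 < p) (hn : 1 ≤ n) (hk : 1 ≤ k)
    (hu : p ^ ((n - 1) * d) ≤ u) (hw : p ^ ((k - 1) * d) ≤ w) (hx : x = u * D ^ n)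
    (hy : y = w * x ^ k) (hz : z + 1 = n * k) (hyz : y = D ^ (n * k) * p ^ (z * d)) :
    x = D ^ n * p ^ ((n - 1) * d) := by
  refine le_antisymm ?_ ?_
  · have h1 : z * d = (k - 1) * d + (n - 1) * d * k := by
      obtain ⟨n', rfl⟩ : ∃ n', n = n' + 1 := ⟨n - 1, by omega⟩
      obtain ⟨k', rfl⟩ : ∃ k', k = k' + 1 := ⟨k - 1, by omega⟩
      have h2 : z = k' + n' * (k' + 1) := by
        have : (n' + 1) * (k' + 1) = k' + n' * (k' + 1) + 1 := by ring
        omega
      rw [h2]
      simp only [Nat.add_sub_cancel]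
      ring
    have h2 : p ^ ((k - 1) * d) * x ^ k ≤
        p ^ ((k - 1) * d) * (D ^ n * p ^ ((n - 1) * d)) ^ k := by
      calc p ^ ((k - 1) * d) * x ^ k ≤ w * x ^ k := Nat.mul_le_mul_right _ hw
        _ = D ^ (n * k) * p ^ (z * d) := by rw [← hy, hyz]
        _ = p ^ ((k - 1) * d) * (D ^ n * p ^ ((n - 1) * d)) ^ k := by
            rw [h1, pow_add, mul_pow, ← pow_mul, ← pow_mul]
            ring
    have h3 := Nat.le_of_mul_le_mul_left h2 (pow_pos hp _)
    exact (Nat.pow_le_pow_iff_left (by omega)).1 h3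
  · rw [hx, mul_comm]
    exact Nat.mul_le_mul_right _ hu

end XDe

/-- **item De** (`Rd` has the hypotheses `Pv` and `Tr`, which are needed here) -/
theorem prf_De (hPv : Pv) (hTr : Tr) : De := by
  intro hDc hRm hRd L E K _ _ _ _ _ _ _ _ _ _ p hp hp2 hcyc hd
  have hp0 : 0 < p := hp.out.pos
  obtain ⟨hdeg, hdis⟩ := hDc L K p hp.out hp2 hcyc hd
  have htow : Module.finrank L E * Module.finrank E K = p - 1 := by
    rw [Module.finrank_mul_finrank, hdeg]
  have htowE : Module.finrank ℚ E = Module.finrank L E * Module.finrank ℚ L := by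
    rw [mul_comm, Module.finrank_mul_finrank]
  refine ⟨htow, htowE, ?_⟩
  have hTL : TotR L L p := hRm L L K p hp2 hcyc hdeg hd
  have hTE : TotR L E p := hRm L E K p hp2 hcyc hdeg hd
  have hTK : TotR L K p := hRm L K K p hp2 hcyc hdeg hd
  have r1 := hRd hPv hTr L L E p hd hTL hTE
  have r2 := hRd hPv hTr L E K p hd hTE hTK
  have d1 := natAbs_discr_eq_absNorm_differentIdeal_mul_natAbs_discr_pow L (𝓞 L) E (𝓞 E)
  have d2 := natAbs_discr_eq_absNorm_differentIdeal_mul_natAbs_discr_pow E (𝓞 E) K (𝓞 K)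
  have hE0 : (discr E).natAbs ≠ 0 := Int.natAbs_ne_zero.2 (discr_ne_zero E)
  have hK0 : (discr K).natAbs ≠ 0 := Int.natAbs_ne_zero.2 (discr_ne_zero K)
  have u0 : 0 < Ideal.absNorm (differentIdeal (𝓞 L) (𝓞 E)) := by
    rcases Nat.eq_zero_or_pos (Ideal.absNorm (differentIdeal (𝓞 L) (𝓞 E))) with h | h
    · rw [h, zero_mul] at d1
      exact absurd d1 hE0
    · exact h
  have w0 : 0 < Ideal.absNorm (differentIdeal (𝓞 E) (𝓞 K)) := by
    rcases Nat.eq_zero_or_pos (Ideal.absNorm (differentIdeal (𝓞 E) (𝓞 K))) with h | h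
    · rw [h, zero_mul] at d2
      exact absurd d2 hK0
    · exact h
  have hn : 0 < Module.finrank L E := Module.finrank_pos
  have hk : 0 < Module.finrank E K := Module.finrank_pos
  have hp3 : 3 ≤ p := by
    have := hp.out.two_le
    omega
  refine XDe.arith (Module.finrank L E) (Module.finrank E K) (Module.finrank ℚ L)
    (discr L).natAbs (discr E).natAbs (discr K).natAbs _ _ (p - 2) p hp0 hn hk
    (Nat.le_of_dvd u0 r1) (Nat.le_of_dvd w0 r2) d1 d2 (by rw [htow]; omega) ?_
  rw [htow]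
  exact hdis

end Pool.Agent.Work.MP_59f3ad_nt.US.N
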