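import Pool.Agent.Work.MP_59f3ad_nt.US.N.Stmts

/-!
# Uniform Schneider, part N: the relative different of a quadratic extension (item DfN)
-/

set_option autoImplicit false

open NumberField IsDedekindDomain Filter Topology

namespace Pool.Agent.Work.MP_59f3ad_nt.US.N

open Pool.Agent.Work.MP_59f3ad_nt.US.H

namespace XDfN

theorem arith (D p m d N : ℕ) (hD : 0 < D) (hp : 0 < p) (hm : 0 < m)
    (h : D ^ (m * 2) * p ^ ((m * 2 - 1) * d) = N * (D ^ m * p ^ ((m - 1) * d)) ^ 2) :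
    N = p ^ d := by
  obtain ⟨m', rfl⟩ : ∃ m', m = m' + 1 := ⟨m - 1, by omega⟩
  have e1 : ((m' + 1) * 2 - 1) * d = m' * d * 2 + d := by
    have : (m' + 1) * 2 - 1 = m' * 2 + 1 := by omega
    rw [this]; ring
  have e2 : (m' + 1 - 1) * d = m' * d := by rw [Nat.add_sub_cancel]
  rw [e1, e2, mul_pow, ← pow_mul, ← pow_mul, pow_add] at h
  have hpos : 0 < D ^ ((m' + 1) * 2) * p ^ (m' * d * 2) := by positivity
  have h2 : (D ^ ((m' + 1) * 2) * p ^ (m' * d * 2)) * N =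
      (D ^ ((m' + 1) * 2) * p ^ (m' * d * 2)) * p ^ d := by
    rw [mul_comm _ N, ← h]; ring
  exact Nat.eq_of_mul_eq_mul_left hpos h2

end XDfN

/-- [DfN] -/
theorem prf_DfN : DfN := by
  intro hDc hRm hRd hDe L F E K _ _ _ _ _ _ _ _ _ _ _ _ _ _ _ _ _ p _ hp2 hcyc hdis hFE
  obtain ⟨-, -, hE⟩ := hDe hDc hRm hRd L E K p hp2 hcyc hdis
  obtain ⟨-, -, hF⟩ := hDe hDc hRm hRd L F K p hp2 hcyc hdis
  have hn : Module.finrank L E = Module.finrank L F * 2 := by
    rw [← hFE]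
    exact (Module.finrank_mul_finrank L F E).symm
  have hmain := natAbs_discr_eq_absNorm_differentIdeal_mul_natAbs_discr_pow F (𝓞 F) E (𝓞 E)
  rw [hFE, hE, hF, hn] at hmain
  refine XDfN.arith (discr L).natAbs p (Module.finrank L F) (Module.finrank ℚ L) _ ?_ ?_ ?_ hmain
  · exact Int.natAbs_pos.2 (discr_ne_zero L)
  · exact (Fact.out : p.Prime).pos
  · exact Module.finrank_pos

end Pool.Agent.Work.MP_59f3ad_nt.US.N
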