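import Pool.Agent.Work.MP_59f3ad_nt.US.N.Stmts
import Pool.Agent.Work.MP_59f3ad_nt.US.H.I_Kp

/-!
Uniform Schneider, part N, item KpN: comparison of the residues.
-/

set_option autoImplicit false

open NumberField IsDedekindDomain Filter Topology

namespace Pool.Agent.Work.MP_59f3ad_nt.US.N

open Pool.Agent.Work.MP_59f3ad_nt.US.H

namespace XKpN

theorem pow_ne_one {p : ℕ} [hp : Fact p.Prime] {χ : DirichletCharacter ℂ p} (h : χ ∈ oddC p)
    {k : ℕ} (hk : Odd k) : χ ^ k ≠ 1 := by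
  classical
  intro h1
  have h2 : χ (-1) = -1 := χ.even_or_odd.resolve_left (Finset.mem_filter.1 h).2
  have h3 : (χ ^ k) (-1) = (χ (-1)) ^ k := by
    rw [← Units.coe_neg_one, MulChar.pow_apply_coe]
  have h4 : (1 : DirichletCharacter ℂ p) (-1) = 1 := MulChar.one_apply isUnit_one.neg
  rw [h2, hk.neg_one_pow, h1, h4] at h3
  norm_num at h3

theorem card_mul {p : ℕ} [hp : Fact p.Prime] (h2 : p ≠ 2) {k n : ℕ} (hk : Odd k)
    (hnk : n * k = p - 1) : (oddC p).card = n / 2 * k := by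
  have h1 := XKp.card_add (p := p)
  have h3 := XKp.card_eq (p := p) h2
  have h4 : Even (n * k) := by
    rw [hnk]
    exact ⟨(oddC p).card, by omega⟩
  have h5 : Even n := by
    rcases Nat.even_mul.1 h4 with h | h
    · exact h
    · exact absurd h (Nat.not_even_iff_odd.2 hk)
  obtain ⟨m, hm⟩ := h5
  have h6 : n / 2 = m := by omega
  rw [h6]
  have h7 : n * k = m * k + m * k := by rw [hm]; ring
  omega

end XKpN

open XKpN in
theorem prf_KpN : KpN := by
  intro F E _ _ _ _ p hp C Lf k n h2 hC hk hnk hR hZ hL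
  have hlog : 0 ≤ Real.log p := Real.log_natCast_nonneg p
  have hB : 0 ≤ C * (1 + Real.log p) := mul_nonneg hC.le (by linarith)
  have hk0 : k ≠ 0 := by
    rintro rfl
    exact absurd hk (by decide)
  have key : ∀ s : ℝ, 1 < s → s ≤ 2 →
      zK E s ≤ (C * (1 + Real.log p)) ^ (n / 2) * zK F s := by
    intro s h1 h3
    have hE := XKp.zK_nonneg E s
    have hF := XKp.zK_nonneg F s
    have h4 := congrArg (fun z : ℂ => ‖z‖) (hZ s h1)
    simp only [norm_mul, norm_prod, norm_pow, Complex.norm_real, Real.norm_eq_abs] at h4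
    rw [abs_of_nonneg hE, abs_of_nonneg hF] at h4
    have h5 : zK E s ^ k ≤ ((C * (1 + Real.log p)) ^ (n / 2) * zK F s) ^ k := by
      rw [h4, mul_pow, mul_comm, ← pow_mul, ← card_mul h2 hk hnk, ← Finset.prod_const]
      refine mul_le_mul_of_nonneg_right ?_ (pow_nonneg hF k)
      exact Finset.prod_le_prod (fun _ _ => norm_nonneg _) fun χ hχ =>
        hL (χ ^ k) (pow_ne_one hχ hk) s h1 h3
    exact (pow_le_pow_iff_left₀ hE (mul_nonneg (pow_nonneg hB _) hF) hk0).1 h5
  refine le_of_tendsto_of_tendsto (hR E)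
    ((hR F).const_mul ((C * (1 + Real.log p)) ^ (n / 2))) ?_
  have h5 : Set.Ioc (1 : ℝ) 2 ∈ 𝓝[>] (1 : ℝ) := Ioc_mem_nhdsGT one_lt_two
  filter_upwards [h5] with s hs
  have h6 := mul_le_mul_of_nonneg_left (key s hs.1 hs.2) (sub_nonneg.2 hs.1.le)
  calc (s - 1) * zK E s ≤ (s - 1) * ((C * (1 + Real.log p)) ^ (n / 2) * zK F s) := h6
    _ = (C * (1 + Real.log p)) ^ (n / 2) * ((s - 1) * zK F s) := by ring

end Pool.Agent.Work.MP_59f3ad_nt.US.N
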