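import Pool.Agent.Work.MP_59f3ad_nt.US.N.Stmts

set_option autoImplicit false

namespace Pool.Agent.Work.MP_59f3ad_nt.US.N

namespace XOr

theorem arith (m k : ℕ) (hk : Odd k) (r : ℕ) (h : r * Nat.gcd m k = m) :
    (if Even r then r / 2 else r) * Nat.gcd m (2 * k) = m := by
  have h2k : Nat.Coprime 2 k := (Nat.coprime_two_left).2 hk
  by_cases hr : Even r
  · rw [if_pos hr]
    obtain ⟨t, ht⟩ := hr
    have ht2 : r = 2 * t := by omega
    have e1 : m = 2 * (t * Nat.gcd m k) := by
      rw [← mul_assoc, ← ht2]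
      exact h.symm
    have e2 : Nat.gcd m k = Nat.gcd (t * Nat.gcd m k) k := by
      conv_lhs => rw [e1]
      exact Nat.Coprime.gcd_mul_left_cancel (t * Nat.gcd m k) h2k
    have e3 : Nat.gcd m (2 * k) = 2 * Nat.gcd m k := by
      conv_lhs => rw [e1]
      rw [Nat.gcd_mul_left, ← e2]
    rw [e3, ht2, Nat.mul_div_cancel_left t (by norm_num)]
    calc t * (2 * Nat.gcd m k) = 2 * (t * Nat.gcd m k) := by ring
      _ = m := e1.symm
  · rw [if_neg hr]
    rw [Nat.not_even_iff_odd] at hr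
    have hg : Odd (Nat.gcd m k) := Odd.of_dvd_nat hk (Nat.gcd_dvd_right m k)
    have hm : Odd m := by
      rw [← h]
      exact hr.mul hg
    rw [Nat.Coprime.gcd_mul_left_cancel_right k ((Nat.coprime_two_left).2 hm)]
    exact h

end XOr

theorem prf_Or : Or := by
  intro p _ a k hk
  have h1 : orderOf (a ^ k) * Nat.gcd (orderOf a) k = orderOf a := by
    rw [orderOf_pow' a hk.ne']
    exact Nat.div_mul_cancel (Nat.gcd_dvd_left _ _)
  exact ⟨h1, fun hodd => XOr.arith (orderOf a) k hodd (orderOf (a ^ k)) h1⟩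

end Pool.Agent.Work.MP_59f3ad_nt.US.N
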