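import Pool.Agent.Work.MP_59f3ad_nt.US.N.Stmts
import Pool.Agent.Work.MP_59f3ad_nt.US.H.I_Rm

/-!
# Uniform Schneider, part N: item Pv (the product of the norms of the primes above `p`)
-/

set_option autoImplicit false

open NumberField IsDedekindDomain Filter Topology

namespace Pool.Agent.Work.MP_59f3ad_nt.US.N

open Pool.Agent.Work.MP_59f3ad_nt.US.H

namespace XPv

/-- the finite set of the primes above `p` -/
theorem exists_T (E : Type) [Field E] [NumberField E] (p : ℕ) [hp : Fact p.Prime] :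
    ∃ T : Finset (HeightOneSpectrum (𝓞 E)), ∀ v, v ∈ T ↔ (p : 𝓞 E) ∈ v.asIdeal := by
  have h0 : Ideal.span {(p : 𝓞 E)} ≠ 0 := by
    intro h
    rw [Ideal.zero_eq_bot, Ideal.span_singleton_eq_bot] at h
    exact hp.out.ne_zero (by exact_mod_cast h)
  refine ⟨(Ideal.finite_factors h0).toFinset, fun v => ?_⟩
  rw [Set.Finite.mem_toFinset, Set.mem_ofPred_eq, Ideal.dvd_span_singleton]

/-- the base case -/
theorem base (L : Type) [Field L] [NumberField L] (p : ℕ) [hp : Fact p.Prime]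
    (hd : ¬ (p : ℤ) ∣ discr L) (T : Finset (HeightOneSpectrum (𝓞 L)))
    (hT : ∀ v, v ∈ T ↔ (p : 𝓞 L) ∈ v.asIdeal) :
    ∏ v ∈ T, Ideal.absNorm v.asIdeal = p ^ Module.finrank ℚ L := by
  classical
  have h0 : Ideal.span {(p : 𝓞 L)} ≠ 0 := by
    intro h
    rw [Ideal.zero_eq_bot, Ideal.span_singleton_eq_bot] at h
    exact hp.out.ne_zero (by exact_mod_cast h)
  have hinj : ∀ v ∈ T, ∀ w ∈ T, v.asIdeal = w.asIdeal → v = w :=
    fun v _ w _ h => HeightOneSpectrum.ext h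
  have hprod : ∏ J ∈ T.image (fun v => v.asIdeal), J = ∏ v ∈ T, v.asIdeal :=
    Finset.prod_image hinj
  have hdiv : ∏ v ∈ T, v.asIdeal ∣ Ideal.span {(p : 𝓞 L)} := by
    rw [← hprod]
    refine Finset.prod_primes_dvd _ ?_ ?_
    · intro J hJ
      obtain ⟨v, -, rfl⟩ := Finset.mem_image.1 hJ
      exact v.prime
    · intro J hJ
      obtain ⟨v, hv, rfl⟩ := Finset.mem_image.1 hJ
      exact Ideal.dvd_span_singleton.2 ((hT v).1 hv)
  obtain ⟨R, hR⟩ := hdiv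
  have hR1 : R = ⊤ := by
    by_contra hne
    obtain ⟨m, hm, hRm⟩ := Ideal.exists_le_maximal R hne
    have hmR : m ∣ R := Ideal.dvd_iff_le.2 hRm
    have hmI : m ∣ Ideal.span {(p : 𝓞 L)} := hR ▸ Dvd.dvd.mul_left hmR _
    have hm0 : m ≠ ⊥ := by
      rintro rfl
      exact h0 (zero_dvd_iff.1 hmI)
    have hq : (p : 𝓞 L) ∈ m := Ideal.dvd_span_singleton.1 hmI
    obtain ⟨q, hq'⟩ : ∃ q : HeightOneSpectrum (𝓞 L), q.asIdeal = m := ⟨⟨m, hm.isPrime, hm0⟩, rfl⟩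
    have hqp : (p : 𝓞 L) ∈ q.asIdeal := hq' ▸ hq
    have hqT : q ∈ T := (hT q).2 hqp
    refine XRm.not_mem_sq L p hd q hqp ?_
    rw [← Ideal.dvd_span_singleton, hR, pow_two]
    refine mul_dvd_mul (Finset.dvd_prod_of_mem (fun v : HeightOneSpectrum (𝓞 L) => v.asIdeal) hqT) ?_
    rw [hq']
    exact hmR
  rw [hR1, Ideal.mul_top] at hR
  have h1 := congrArg Ideal.absNorm hR
  rw [Ideal.absNorm_span_natCast, map_prod, RingOfIntegers.rank] at h1
  exact h1.symm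

end XPv

/-- Item Pv. -/
theorem prf_Pv : Pv := by
  intro L E _ _ _ _ _ p hp hd htot
  obtain ⟨S, hS⟩ := XPv.exists_T L p
  obtain ⟨T, hT⟩ := XPv.exists_T E p
  refine ⟨T, hT, ?_⟩
  rw [← XPv.base L p hd S hS]
  have hex : ∀ v : HeightOneSpectrum (𝓞 E), ∃ q : HeightOneSpectrum (𝓞 L),
      v.asIdeal.under (𝓞 L) = q.asIdeal := by
    intro v
    have hvm : v.asIdeal.IsMaximal := v.isMaximal
    refine ⟨⟨v.asIdeal.under (𝓞 L), inferInstance, ?_⟩, rfl⟩
    exact Ideal.under_ne_bot (𝓞 L) v.ne_bot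
  choose f hf using hex
  have hfp : ∀ v, (p : 𝓞 E) ∈ v.asIdeal ↔ (p : 𝓞 L) ∈ (f v).asIdeal := by
    intro v
    rw [← hf v, Ideal.under_def, Ideal.mem_comap, map_natCast]
  refine Finset.prod_bij (fun v _ => f v) ?_ ?_ ?_ ?_
  · intro v hv
    exact (hS _).2 ((hfp v).1 ((hT v).1 hv))
  · intro v hv w hw h
    have h1 : (p : 𝓞 L) ∈ (f v).asIdeal := (hfp v).1 ((hT v).1 hv)
    obtain ⟨a, ha⟩ := Set.ncard_eq_one.1 (htot (f v) h1).1
    have h2 : v ∈ above L E (f v) := hf v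
    have h3 : w ∈ above L E (f v) := by
      change w.asIdeal.under (𝓞 L) = (f v).asIdeal
      rw [hf w, h]
    rw [ha, Set.mem_singleton_iff] at h2 h3
    rw [h2, h3]
  · intro q hq
    have h1 : (p : 𝓞 L) ∈ q.asIdeal := (hS q).1 hq
    obtain ⟨v, hv⟩ := Set.ncard_eq_one.1 (htot q h1).1
    have h2 : v ∈ above L E q := by rw [hv]; exact Set.mem_singleton _
    have h3 : f v = q := HeightOneSpectrum.ext ((hf v).symm.trans h2)
    exact ⟨v, (hT v).2 ((hfp v).2 (h3 ▸ h1)), h3⟩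
  · intro v hv
    have h1 : (p : 𝓞 L) ∈ (f v).asIdeal := (hfp v).1 ((hT v).1 hv)
    exact (htot (f v) h1).2 v (hf v)

end Pool.Agent.Work.MP_59f3ad_nt.US.N
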