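import Pool.Agent.Work.MP_59f3ad_nt.US.N.Stmts

/-!
# Uniform Schneider, part N, item Rd: lower bound for the different
-/

set_option autoImplicit false

open NumberField IsDedekindDomain Filter Topology

namespace Pool.Agent.Work.MP_59f3ad_nt.US.N

open Pool.Agent.Work.MP_59f3ad_nt.US.H

namespace XRd

theorem one {A B : Type} [Field A] [NumberField A] [Field B] [NumberField B] [Algebra A B]
    {p m : ℕ} (hp : p ≠ 0) (hm : m ≠ 0) (v : HeightOneSpectrum (𝓞 B))
    (hv : (p : 𝓞 B) ∈ v.asIdeal)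
    (h : (v.asIdeal.under (𝓞 A)).map (algebraMap (𝓞 A) (𝓞 B)) = v.asIdeal ^ m) :
    v.asIdeal ^ (m - 1) ∣ differentIdeal (𝓞 A) (𝓞 B) := by
  have hvm : v.asIdeal.IsMaximal := v.isMaximal
  have hmax : (v.asIdeal.under (𝓞 A)).IsMaximal :=
    Ideal.isMaximal_comap_of_isIntegral_of_isMaximal v.asIdeal
  have hne : v.asIdeal.under (𝓞 A) ≠ ⊥ := by
    intro hbot
    have h1 : (p : 𝓞 A) ∈ v.asIdeal.under (𝓞 A) := by
      rw [Ideal.mem_comap, map_natCast]
      exact hv
    rw [hbot, Ideal.mem_bot] at h1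
    exact hp (by exact_mod_cast h1)
  exact pow_sub_one_dvd_differentIdeal_aux (𝓞 A) A B v.asIdeal hm hne (h ▸ dvd_rfl)

end XRd

open XRd in
theorem prf_Rd : Rd := by
  intro hPv hTr L A B _ _ _ _ _ _ _ _ _ _ p hpf hd hA hB
  have hp := hpf.out
  obtain ⟨T, hT, hprod⟩ := hPv L B p hd hB
  have hm : Module.finrank A B ≠ 0 := (Module.finrank_pos (R := A) (M := B)).ne'
  have hdv : ∀ v ∈ T, v.asIdeal ^ (Module.finrank A B - 1) ∣ differentIdeal (𝓞 A) (𝓞 B) := by
    intro v hv
    have hpv := (hT v).1 hv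
    exact one hp.ne_zero hm v hpv (hTr L A B p hA hB v hpv)
  have hcop : (T : Set (HeightOneSpectrum (𝓞 B))).Pairwise
      (Function.onFun IsCoprime fun v : HeightOneSpectrum (𝓞 B) =>
        v.asIdeal ^ (Module.finrank A B - 1)) := by
    intro v _ w _ hvw
    refine IsCoprime.pow ?_
    have hvm : v.asIdeal.IsMaximal := v.isMaximal
    have hwm : w.asIdeal.IsMaximal := w.isMaximal
    exact Ideal.isCoprime_of_isMaximal fun h => hvw (HeightOneSpectrum.ext h)
  have h1 := Finset.prod_dvd_of_coprime hcop hdv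
  have h2 := map_dvd Ideal.absNorm h1
  rw [map_prod] at h2
  simp only [map_pow] at h2
  rw [Finset.prod_pow, hprod, ← pow_mul, mul_comm] at h2
  exact h2

end Pool.Agent.Work.MP_59f3ad_nt.US.N
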