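import Pool.Agent.Work.MP_59f3ad_nt.US.N.Stmts

set_option autoImplicit false

/-! Item Sg: splitting in an intermediate field of a cyclic extension. -/

open NumberField IsDedekindDomain

namespace Pool.Agent.Work.MP_59f3ad_nt.US.N

open Pool.Agent.Work.MP_59f3ad_nt.US.H

namespace XSg

open scoped Pointwise

section general

variable {L K : Type} [Field L] [NumberField L] [Field K] [NumberField K] [Algebra L K]

/-- the primes above `q` -/
lemma above_eq (q : HeightOneSpectrum (𝓞 L)) :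
    q.asIdeal.primesOver (𝓞 K) = HeightOneSpectrum.asIdeal '' (above L K q) := by
  ext P
  constructor
  · rintro ⟨hP1, hP2⟩
    have hP3 : P ≠ ⊥ := by
      rintro rfl
      refine q.ne_bot ?_
      rw [hP2.over]
      exact Ideal.comap_bot_of_injective _ (FaithfulSMul.algebraMap_injective (𝓞 L) (𝓞 K))
    exact ⟨⟨P, hP1, hP3⟩, hP2.over.symm, rfl⟩
  · rintro ⟨w, hw, rfl⟩
    exact ⟨w.isPrime, ⟨(hw : w.asIdeal.under (𝓞 L) = q.asIdeal).symm⟩⟩

lemma above_ncard (q : HeightOneSpectrum (𝓞 L)) :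
    (above L K q).ncard = (q.asIdeal.primesOver (𝓞 K)).ncard := by
  rw [above_eq, Set.ncard_image_of_injective _ fun x y h => HeightOneSpectrum.ext h]

/-- the stabilizer -/
lemma stab [IsGalois L K] (q : Ideal (𝓞 L)) [q.IsMaximal] (hq : q ≠ ⊥) (v : Ideal (𝓞 K))
    [v.IsMaximal] [v.LiesOver q] :
    Nat.card (MulAction.stabilizer Gal(K/L) v) = v.ramificationIdx (𝓞 L) * v.inertiaDeg (𝓞 L) ∧
    (q.primesOver (𝓞 K)).ncard * Nat.card (MulAction.stabilizer Gal(K/L) v) =
      Module.finrank L K := by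
  have : Finite (𝓞 L ⧸ q) := Ring.HasFiniteQuotients.finiteQuotient hq
  have h1 := Ideal.card_stabilizer_eq (G := Gal(K/L)) q v
  constructor
  · rw [h1, Ideal.ramificationIdxIn_eq_ramificationIdx q v Gal(K/L),
      Ideal.inertiaDegIn_eq_inertiaDeg q v Gal(K/L)]
  · rw [h1, Ideal.ncard_primesOver_mul_ramificationIdxIn_mul_inertiaDegIn q (𝓞 K) Gal(K/L),
      IsGalois.card_aut_eq_finrank]

end general

section tower

variable {L E K : Type} [Field L] [NumberField L] [Field E] [NumberField E] [Field K]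
  [NumberField K] [Algebra L E] [Algebra E K] [Algebra L K] [IsScalarTower L E K]

lemma smul_eq (h : Gal(K/E)) (v : Ideal (𝓞 K)) :
    (AlgEquiv.restrictScalarsHom L h : Gal(K/L)) • v = h • v := by
  rw [Ideal.pointwise_smul_def, Ideal.pointwise_smul_def]
  congr 1

lemma stab_map (v : Ideal (𝓞 K)) :
    (MulAction.stabilizer Gal(K/E) v).map
      (AlgEquiv.restrictScalarsHom L : Gal(K/E) →* Gal(K/L)) =
      MulAction.stabilizer Gal(K/L) v ⊓
        (AlgEquiv.restrictScalarsHom L : Gal(K/E) →* Gal(K/L)).range := by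
  ext g
  simp only [Subgroup.mem_map, MulAction.mem_stabilizer_iff, Subgroup.mem_inf, MonoidHom.mem_range]
  constructor
  · rintro ⟨h, h1, rfl⟩
    exact ⟨by rw [smul_eq, h1], h, rfl⟩
  · rintro ⟨h1, h, rfl⟩
    exact ⟨h, by rw [← smul_eq (L := L), h1], rfl⟩

lemma res_inj : Function.Injective (AlgEquiv.restrictScalarsHom L : Gal(K/E) →* Gal(K/L)) := by
  intro a b hab
  ext x
  exact congrArg (fun g : Gal(K/L) => g x) hab

lemma stab_card (hCy : Cy) [IsGalois L K] [IsCyclic Gal(K/L)] (v : Ideal (𝓞 K)) :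
    Nat.card (MulAction.stabilizer Gal(K/E) v) =
      Nat.gcd (Nat.card (MulAction.stabilizer Gal(K/L) v)) (Module.finrank E K) := by
  have : IsGalois E K := IsGalois.tower_top_of_isGalois L E K
  rw [Nat.card_congr ((MulAction.stabilizer Gal(K/E) v).equivMapOfInjective _
    (res_inj (L := L) (E := E) (K := K))).toEquiv, stab_map, hCy Gal(K/L)]
  congr 1
  rw [← IsGalois.card_aut_eq_finrank E K]
  exact (Nat.card_congr (MonoidHom.ofInjective (res_inj (L := L) (E := E) (K := K))).toEquiv).symm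

/-- one prime of the intermediate field -/
lemma key (hCy : Cy) [IsGalois L K] [IsCyclic Gal(K/L)] (q : HeightOneSpectrum (𝓞 L)) (f₀ f : ℕ)
    (hf₀ : 0 < f₀) (hcard : (above L K q).ncard * f₀ = Module.finrank L K)
    (hnorm : ∀ v ∈ above L K q, Ideal.absNorm v.asIdeal = Ideal.absNorm q.asIdeal ^ f₀)
    (hf : f * Nat.gcd f₀ (Module.finrank E K) = f₀)
    (w : Ideal (𝓞 E)) [w.IsMaximal] [hw : w.LiesOver q.asIdeal] :
    w.ramificationIdx (𝓞 L) = 1 ∧ w.inertiaDeg (𝓞 L) = f := by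
  obtain ⟨v, hv1, hv2⟩ := Ideal.exists_maximal_ideal_liesOver_of_isIntegral w (S := 𝓞 K)
  have hvq : v.LiesOver q.asIdeal := Ideal.LiesOver.trans v w q.asIdeal
  have hqm : q.asIdeal.IsMaximal := q.isMaximal
  have hGal : IsGalois E K := IsGalois.tower_top_of_isGalois L E K
  have hq1 : 1 < Ideal.absNorm q.asIdeal := by
    have h0 : Ideal.absNorm q.asIdeal ≠ 0 := Ideal.absNorm_eq_zero_iff.not.2 q.ne_bot
    have h1 : Ideal.absNorm q.asIdeal ≠ 1 := Ideal.absNorm_eq_one_iff.not.2 hqm.ne_top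
    omega
  have hw0 : w ≠ ⊥ := by
    rintro rfl
    refine q.ne_bot ?_
    rw [hw.over]
    exact Ideal.comap_bot_of_injective _ (FaithfulSMul.algebraMap_injective (𝓞 L) (𝓞 E))
  obtain ⟨s1, s2⟩ := stab (L := L) (K := K) q.asIdeal q.ne_bot v
  obtain ⟨t1, _⟩ := stab (L := E) (K := K) w hw0 v
  have hmem : v ∈ q.asIdeal.primesOver (𝓞 K) := ⟨hv1.isPrime, hvq⟩
  rw [above_eq] at hmem
  obtain ⟨v', hv', rfl⟩ := hmem
  have hfv : v'.asIdeal.inertiaDeg (𝓞 L) = f₀ := by
    have h1 := hnorm v' hv'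
    rw [← Ideal.absNorm_pow_inertiaDeg q.asIdeal v'.asIdeal] at h1
    exact Nat.pow_right_injective hq1 h1
  have hpos : 0 < Module.finrank L K := Module.finrank_pos
  have hst : Nat.card (MulAction.stabilizer Gal(K/L) v'.asIdeal) = f₀ := by
    rw [← above_ncard, ← hcard] at s2
    refine Nat.eq_of_mul_eq_mul_left ?_ s2
    rcases Nat.eq_zero_or_pos (above L K q).ncard with h | h
    · rw [h, zero_mul] at hcard
      omega
    · exact h
  rw [hst, hfv] at s1
  have he : v'.asIdeal.ramificationIdx (𝓞 L) = 1 := by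
    have : 1 * f₀ = v'.asIdeal.ramificationIdx (𝓞 L) * f₀ := by rw [one_mul]; exact s1
    exact (Nat.eq_of_mul_eq_mul_right hf₀ this).symm
  rw [stab_card (L := L) hCy, hst] at t1
  have e1 := Ideal.ramificationIdx_tower (R := 𝓞 L) w v'.asIdeal
  have e2 := Ideal.inertiaDeg_tower (R := 𝓞 L) w v'.asIdeal
  rw [he] at e1
  rw [hfv] at e2
  have e3 : w.ramificationIdx (𝓞 L) = 1 := Nat.eq_one_of_mul_eq_one_right e1.symm
  have e4 : v'.asIdeal.ramificationIdx (𝓞 E) = 1 := Nat.eq_one_of_mul_eq_one_left e1.symm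
  refine ⟨e3, ?_⟩
  rw [e4, one_mul] at t1
  rw [← t1] at e2
  have hg : 0 < Nat.gcd f₀ (Module.finrank E K) := Nat.gcd_pos_of_pos_left _ hf₀
  exact Nat.eq_of_mul_eq_mul_right hg (e2.symm.trans hf.symm)

end tower

end XSg

open XSg in
/-- **Sg** -/
theorem prf_Sg : Sg := by
  intro hCy L E K _ _ _ _ _ _ _ _ _ _ _ _ q f₀ f hf₀ hcard hnorm hf
  have hk : ∀ (w : Ideal (𝓞 E)) [w.IsMaximal] [w.LiesOver q.asIdeal],
      w.ramificationIdx (𝓞 L) = 1 ∧ w.inertiaDeg (𝓞 L) = f := fun w _ _ =>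
    key (K := K) hCy q f₀ f hf₀ hcard hnorm hf w
  have hqm : q.asIdeal.IsMaximal := q.isMaximal
  constructor
  · have : Fintype (q.asIdeal.primesOver (𝓞 E)) := Fintype.ofFinite _
    have h1 := Ideal.sum_ramification_inertia_eq_finrank q.asIdeal (𝓞 E)
    have h2 : ∀ P : q.asIdeal.primesOver (𝓞 E),
        P.1.ramificationIdx (𝓞 L) * P.1.inertiaDeg (𝓞 L) = f := by
      intro P
      have hP1 : P.1.IsPrime := P.2.1
      have hP2 : P.1.LiesOver q.asIdeal := P.2.2
      have hP3 : P.1.IsMaximal := Ideal.IsMaximal.of_liesOver_isMaximal P.1 q.asIdeal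
      rw [(hk P.1).1, (hk P.1).2, one_mul]
    rw [Finset.sum_congr rfl fun P _ => h2 P, Finset.sum_const, smul_eq_mul,
      ← IsFractionRing.finrank_eq (𝓞 L) L (𝓞 E) E, Finset.card_univ] at h1
    have h3 : (above L E q).ncard = Fintype.card (q.asIdeal.primesOver (𝓞 E)) := by
      rw [above_ncard, ← Nat.card_eq_fintype_card, Nat.card_coe_set_eq]
    rw [h3, h1]
  · intro v hv
    have hv1 : v.asIdeal.LiesOver q.asIdeal := ⟨(hv : v.asIdeal.under (𝓞 L) = q.asIdeal).symm⟩
    have hv2 : v.asIdeal.IsMaximal := v.isMaximal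
    rw [← (hk v.asIdeal).2]
    exact (Ideal.absNorm_pow_inertiaDeg q.asIdeal v.asIdeal).symm

end Pool.Agent.Work.MP_59f3ad_nt.US.N
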