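import Pool.Agent.Work.MP_59f3ad_nt.US.N.Stmts

/-!
# Uniform Schneider, part N, item SgQ: splitting in the intermediate fields of `L(μ_p)`
-/

set_option autoImplicit false

open NumberField IsDedekindDomain Filter Topology

namespace Pool.Agent.Work.MP_59f3ad_nt.US.N

open Pool.Agent.Work.MP_59f3ad_nt.US.H

theorem prf_SgQ : SgQ := by
  intro hKD hSp1 hCy hCyG hSg L E K _ _ _ _ _ _ _ _ _ _ p hp hp2 hcyc hfin q a f ha hf
  obtain ⟨hG, hC⟩ := hCyG L K p hcyc
  obtain ⟨h1, h2⟩ := hSp1 hKD L K p hp2 hcyc hfin q a ha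
  have hdvd : orderOf a ∣ p - 1 := by
    have h3 := orderOf_dvd_card (x := a)
    rwa [ZMod.card_units] at h3
  refine hSg hCy L E K q (orderOf a) f (orderOf_pos a) ?_ h2 hf
  rw [h1, hfin]
  exact Nat.div_mul_cancel hdvd

end Pool.Agent.Work.MP_59f3ad_nt.US.N
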