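import Pool.Agent.Work.MP_59f3ad_nt.US.N.Stmts

/-!
# Uniform Schneider, part N: item TAN
-/

set_option autoImplicit false

open NumberField IsDedekindDomain Filter Topology Polynomial

namespace Pool.Agent.Work.MP_59f3ad_nt.US.N

open Pool.Agent.Work.MP_59f3ad_nt.US.H

theorem prf_TAN : TAN := by
  intro hE hO hCl hDc hRm hRd hDe hAs L _ _ ε hε
  have hd : 0 < Module.finrank ℚ L := Module.finrank_pos
  have hD : 0 < (discr L).natAbs := Int.natAbs_pos.mpr (NumberField.discr_ne_zero L)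
  obtain ⟨p₀, hp₀⟩ := hAs (Module.finrank ℚ L) (discr L).natAbs hd hD ε hε
  refine ⟨max p₀ (max ((discr L).natAbs + 1) 3), ?_⟩
  intro p hp hle E K _ _ _ _ _ _ _ _ hcyc k hk
  have h1 : p₀ ≤ p := le_trans (le_max_left _ _) hle
  have h2 : (discr L).natAbs + 1 ≤ p :=
    le_trans (le_trans (le_max_left _ _) (le_max_right _ _)) hle
  have h3 : 3 ≤ p := le_trans (le_trans (le_max_right _ _) (le_max_right _ _)) hle
  have hnd : ¬ (p : ℤ) ∣ discr L := by
    intro h
    have h4 : p ∣ (discr L).natAbs := Int.natCast_dvd.mp h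
    have h5 := Nat.le_of_dvd hD h4
    omega
  haveI : Fact p.Prime := ⟨hp⟩
  obtain ⟨-, hfin, hdisc⟩ := hDe hDc hRm hRd L E K p (by omega) hcyc hnd
  have hcn : 0 < classNumber E := Fintype.card_pos
  have hn : 0 < Module.finrank L E := Module.finrank_pos
  refine hp₀ p hp h1 (Module.finrank L E) k (classNumber E) hn hcn hk ?_
  intro s hs
  have h6 := hCl hE hO E s hs
  have h7 : (|(discr E : ℝ)|) = (((discr E).natAbs : ℕ) : ℝ) := by
    rw [Nat.cast_natAbs, Int.cast_abs]
  rw [h7, hdisc, hfin] at h6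
  exact h6

end Pool.Agent.Work.MP_59f3ad_nt.US.N
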