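import Pool.Agent.Work.MP_59f3ad_nt.US.N.Stmts
import Pool.Agent.Work.MP_59f3ad_nt.US.H.I_TB

/-!
# Uniform Schneider, part N, item TBN: theorem B', the relative class number
-/

set_option autoImplicit false

open NumberField IsDedekindDomain Filter Topology

namespace Pool.Agent.Work.MP_59f3ad_nt.US.N

open Pool.Agent.Work.MP_59f3ad_nt.US.H

theorem prf_TBN : TBN := by
  intro hEul hOv hSm hEG hRs hDc hCh1 hCh2 hKD hSp1 hRm hLB hRL hHr hTo hKR hRd hDe hCy hCyG hSg
    hSgQ hOr hZfN hKpN hRLN hDfN hAsB L _ _ hreal ε hε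
  obtain ⟨C, hC, q₀, hb⟩ := hLB L
  have hd : 0 < Module.finrank ℚ L := Module.finrank_pos
  have hD : 0 < (discr L).natAbs := Int.natAbs_pos.2 (discr_ne_zero L)
  obtain ⟨p₁, hp₁⟩ := hAsB (Module.finrank ℚ L) (discr L).natAbs C hd hD hC ε hε
  refine ⟨p₁ + q₀ + (discr L).natAbs + 3, ?_⟩
  intro p hp hpp E K _ _ _ _ _ _ _ _ hcyc hodd hCM k H hH hHc
  have : Fact p.Prime := ⟨hp⟩
  have hp2 : p ≠ 2 := by omega
  have hnd : ¬ (p : ℤ) ∣ discr L := XTB.not_dvd L (by omega)
  obtain ⟨-, hLF⟩ := hRLN hRL L E K p hp2 hcyc hreal hodd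
  obtain ⟨hfin, -⟩ := hDc L K p hp hp2 hcyc hnd
  obtain ⟨hnk, hQE, hdisc⟩ := hDe hDc hRm hRd L E K p hp2 hcyc hnd
  let _ : Algebra L (maximalRealSubfield E) := (XTB.toF L E hLF).toAlgebra
  have : IsScalarTower L (maximalRealSubfield E) E := IsScalarTower.of_algebraMap_eq fun x => rfl
  have : IsScalarTower L (maximalRealSubfield E) K := IsScalarTower.of_algebraMap_eq fun x => by
    rw [IsScalarTower.algebraMap_apply L E K, IsScalarTower.algebraMap_apply
      (maximalRealSubfield E) E K, ← IsScalarTower.algebraMap_apply L (maximalRealSubfield E) E]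
  have hFE : Module.finrank (maximalRealSubfield E) E = 2 :=
    Algebra.IsQuadraticExtension.finrank_eq_two (maximalRealSubfield E) E
  have hLFE : Module.finrank L (maximalRealSubfield E) * 2 = Module.finrank L E := by
    rw [← hFE, Module.finrank_mul_finrank]
  have hFK : Module.finrank (maximalRealSubfield E) K = 2 * Module.finrank E K := by
    rw [← hFE, Module.finrank_mul_finrank]
  have hSE := hSgQ hKD hSp1 hCy hCyG hSg L E K p hp2 hcyc hfin
  have hSF := hSgQ hKD hSp1 hCy hCyG hSg L (maximalRealSubfield E) K p hp2 hcyc hfin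
  rw [hFK] at hSF
  have hTE : TotR L E p := fun q hq => hRm L E K p hp2 hcyc hfin hnd q hq
  have hTF : TotR L (maximalRealSubfield E) p := fun q hq =>
    hRm L (maximalRealSubfield E) K p hp2 hcyc hfin hnd q hq
  have hZ := hZfN hEG hSm hEul hOv hCh1 hCh2 hOr L (maximalRealSubfield E) E p hp2
    (Module.finrank E K) (Module.finrank L E) hodd hnk rfl hLFE hSE hSF hTE hTF
  have hκ := hKpN (maximalRealSubfield E) E p C (fun χ s => LI L (chN L p χ) s)
    (Module.finrank E K) (Module.finrank L E) hp2 hC hodd hnk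
    (hRs (hSm hEul hOv)) hZ (fun χ hχ s hs hs2 => hb p hp (by omega) χ hχ s hs hs2)
  have hh := hHr E _ hκ
  have hδ := hDfN hDc hRm hRd hDe L (maximalRealSubfield E) E K p hp2 hcyc hnd hFE
  have hw := hTo E
  have hi := hKR E H hHc
  rw [hH] at hi
  rw [hQE] at hw
  rw [hdisc] at hh
  have hpos : 0 < classNumber (maximalRealSubfield E) :=
    Nat.pos_of_ne_zero (classNumber_ne_zero _)
  have hn : 0 < Module.finrank L E := by
    rcases Nat.eq_zero_or_pos (Module.finrank L E) with h0 | h0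
    · rw [h0, zero_mul] at hnk
      omega
    · exact h0
  exact hp₁ p hp (by omega) (Module.finrank L E) k (classNumber E)
    (classNumber (maximalRealSubfield E)) (Units.torsionOrder E) _ hn hpos hi hw hδ.le hh

end Pool.Agent.Work.MP_59f3ad_nt.US.N
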