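import Pool.Agent.Work.MP_59f3ad_nt.US.N.Stmts

/-!
# Uniform Schneider, part N: item Tr (total ramification in an intermediate extension)
-/

set_option autoImplicit false

open NumberField IsDedekindDomain Filter Topology

namespace Pool.Agent.Work.MP_59f3ad_nt.US.N

open Pool.Agent.Work.MP_59f3ad_nt.US.H

namespace XTr

open UniqueFactorizationMonoid in
/-- An ideal with only one prime divisor is a power of it. -/
theorem eq_pow (R : Type) [CommRing R] [IsDedekindDomain R] (I v : Ideal R) (hI : I ≠ ⊥)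
    (h : ∀ P : Ideal R, Prime P → P ∣ I → P = v) : ∃ k : ℕ, I = v ^ k := by
  refine ⟨Multiset.card (normalizedFactors I), ?_⟩
  have h1 : normalizedFactors I =
      Multiset.replicate (Multiset.card (normalizedFactors I)) v := by
    rw [Multiset.eq_replicate]
    refine ⟨rfl, fun P hP => h P (prime_of_normalized_factor P hP)
      (dvd_of_mem_normalizedFactors hP)⟩
  have h2 := Ideal.prod_normalizedFactors_eq_self hI
  rw [h1, Multiset.prod_replicate] at h2
  exact h2.symm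

/-- The intersection with a subring of a prime above `p`. -/
theorem down (A B : Type) [Field A] [NumberField A] [Field B] [NumberField B] [Algebra A B]
    (p : ℕ) [hp : Fact p.Prime] (v : HeightOneSpectrum (𝓞 B)) (hv : (p : 𝓞 B) ∈ v.asIdeal) :
    ∃ w : HeightOneSpectrum (𝓞 A), w.asIdeal = v.asIdeal.under (𝓞 A) ∧ (p : 𝓞 A) ∈ w.asIdeal := by
  have hvp : v.asIdeal.IsPrime := v.isPrime
  have h1 : (p : 𝓞 A) ∈ v.asIdeal.under (𝓞 A) := by
    rw [Ideal.under_def, Ideal.mem_comap, map_natCast]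
    exact hv
  have h2 : v.asIdeal.under (𝓞 A) ≠ ⊥ := by
    intro h
    rw [h, Ideal.mem_bot] at h1
    exact hp.out.ne_zero (by exact_mod_cast h1)
  exact ⟨⟨v.asIdeal.under (𝓞 A), inferInstance, h2⟩, rfl, h1⟩

end XTr

open XTr in
/-- Item Tr. -/
theorem prf_Tr : Tr := by
  intro L A B _ _ _ _ _ _ _ _ _ _ p hp hA hB v hv
  obtain ⟨w, hw, hpw⟩ := down A B p v hv
  obtain ⟨q, hq, hpq⟩ := down L B p v hv
  have hwq : w ∈ above L A q := by
    change w.asIdeal.under (𝓞 L) = q.asIdeal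
    rw [hw, hq, Ideal.under_under (B := 𝓞 A) v.asIdeal]
  have hvq : v ∈ above L B q := hq.symm
  have hNv : Ideal.absNorm v.asIdeal = Ideal.absNorm w.asIdeal := by
    rw [(hB q hpq).2 v hvq, (hA q hpq).2 w hwq]
  rw [← hw]
  have hwm : w.asIdeal.IsMaximal := w.isMaximal
  have hI : w.asIdeal.map (algebraMap (𝓞 A) (𝓞 B)) ≠ ⊥ := by
    intro h
    have h1 : (p : 𝓞 B) ∈ w.asIdeal.map (algebraMap (𝓞 A) (𝓞 B)) := by
      have := Ideal.mem_map_of_mem (algebraMap (𝓞 A) (𝓞 B)) hpw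
      rwa [map_natCast] at this
    rw [h, Ideal.mem_bot] at h1
    exact hp.out.ne_zero (by exact_mod_cast h1)
  obtain ⟨x, hx⟩ := Set.ncard_eq_one.1 (hB q hpq).1
  obtain ⟨k, hk⟩ := eq_pow (𝓞 B) _ v.asIdeal hI (by
    intro P hP hPI
    have hPp : P.IsPrime := Ideal.isPrime_of_prime hP
    have h1 : P.under (𝓞 A) = w.asIdeal := by
      rw [Ideal.dvd_iff_le, Ideal.map_le_iff_le_comap] at hPI
      exact (hwm.eq_of_le (Ideal.IsPrime.under (𝓞 A) P).ne_top hPI).symm
    have h2 : (⟨P, hPp, hP.ne_zero⟩ : HeightOneSpectrum (𝓞 B)) ∈ above L B q := by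
      change P.under (𝓞 L) = q.asIdeal
      rw [← Ideal.under_under (B := 𝓞 A) P, h1]
      exact hwq
    rw [hx, Set.mem_singleton_iff] at h2
    rw [hx, Set.mem_singleton_iff] at hvq
    exact congrArg HeightOneSpectrum.asIdeal (h2.trans hvq.symm))
  have hN : Ideal.absNorm (w.asIdeal.map (algebraMap (𝓞 A) (𝓞 B))) =
      Ideal.absNorm w.asIdeal ^ (Module.finrank A B) := by
    rw [Ideal.absNorm_algebraMap]
    congr 1
    exact (IsFractionRing.finrank_eq (𝓞 A) A (𝓞 B) B).symm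
  have hN1 : 1 < Ideal.absNorm w.asIdeal := by
    have h0 : Ideal.absNorm w.asIdeal ≠ 0 := fun h => w.ne_bot (Ideal.absNorm_eq_zero_iff.1 h)
    have h1 : Ideal.absNorm w.asIdeal ≠ 1 := fun h => hwm.ne_top (Ideal.absNorm_eq_one_iff.1 h)
    omega
  rw [hk, map_pow, hNv] at hN
  rw [hk, Nat.pow_right_injective hN1 hN]

end Pool.Agent.Work.MP_59f3ad_nt.US.N
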