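import Pool.Agent.Work.MP_59f3ad_nt.US.N.Stmts
import Pool.Agent.Work.MP_59f3ad_nt.US.H.I_Zf

/-!
# Uniform Schneider, part N: item ZfN

Factorisation of the `k`-th power of `ζ_E/ζ_F`.
-/

set_option autoImplicit false

open NumberField IsDedekindDomain Filter Topology

namespace Pool.Agent.Work.MP_59f3ad_nt.US.N

open Pool.Agent.Work.MP_59f3ad_nt.US.H

namespace XZfN

/-- Powers of a convergent product. -/
theorem hasProd_pow {ι : Type} {f : ι → ℂ} {a : ℂ} (h : HasProd f a) (k : ℕ) :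
    HasProd (fun x => f x ^ k) (a ^ k) :=
  h.map (powMonoidHom k : ℂ →* ℂ) (continuous_pow k)

/-- `(χ^k)(a) = χ(a^k)` for a unit `a`. -/
theorem chi_pow {p : ℕ} [Fact p.Prime] (χ : DirichletCharacter ℂ p) (k : ℕ) (a : (ZMod p)ˣ) :
    (χ ^ k) (a : ZMod p) = χ ((a ^ k : (ZMod p)ˣ) : ZMod p) := by
  rw [MulChar.pow_apply_coe, Units.val_pow_eq_pow_val, map_pow]

/-- The part of `q` in `ζ_M ^ k`. -/
theorem loc {L M : Type} [Field L] [NumberField L] [Field M] [NumberField M] [Algebra L M]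
    (q : HeightOneSpectrum (𝓞 L)) (s : ℝ) (k f N : ℕ) (hf : 0 < f) (hN : 0 < N)
    (hc : (above L M q).ncard * k * f = N)
    (hv : ∀ v ∈ above L M q, Ideal.absNorm v.asIdeal = Ideal.absNorm q.asIdeal ^ f) :
    HasProd (fun v : above L M q =>
        ((1 - (((Ideal.absNorm v.1.asIdeal : ℝ) ^ (-s) : ℝ) : ℂ))⁻¹) ^ k)
      (((1 - (((Ideal.absNorm q.asIdeal : ℝ) ^ (-s) : ℝ) : ℂ) ^ f) ^ (N / f))⁻¹) := by
  have hpos : 0 < (above L M q).ncard := by
    rcases Nat.eq_zero_or_pos (above L M q).ncard with h | h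
    · rw [h] at hc
      omega
    · exact h
  have hdiv : N / f = k * (above L M q).ncard := by
    rw [← hc, Nat.mul_div_cancel _ hf, mul_comm]
  have h2 := XZf.hasProd_const (above L M q) (above L M q).ncard hpos rfl
    (fun v => ((1 - (((Ideal.absNorm v.asIdeal : ℝ) ^ (-s) : ℝ) : ℂ))⁻¹) ^ k)
    (((1 - (((Ideal.absNorm q.asIdeal : ℝ) ^ (-s) : ℝ) : ℂ) ^ f)⁻¹) ^ k)
    (fun v hv' => by rw [hv v hv', XZf.pow_rpow, Complex.ofReal_pow])
  rw [← pow_mul, inv_pow, ← hdiv] at h2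
  exact h2

/-- The part of `q` above `p` in `ζ_M ^ k`. -/
theorem locp {L M : Type} [Field L] [NumberField L] [Field M] [NumberField M] [Algebra L M]
    (q : HeightOneSpectrum (𝓞 L)) (s : ℝ) (k : ℕ) (h1 : (above L M q).ncard = 1)
    (h2 : ∀ v ∈ above L M q, Ideal.absNorm v.asIdeal = Ideal.absNorm q.asIdeal) :
    HasProd (fun v : above L M q =>
        ((1 - (((Ideal.absNorm v.1.asIdeal : ℝ) ^ (-s) : ℝ) : ℂ))⁻¹) ^ k)
      (((1 - (((Ideal.absNorm q.asIdeal : ℝ) ^ (-s) : ℝ) : ℂ))⁻¹) ^ k) := by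
  have h3 := XZf.hasProd_const (above L M q) 1 one_pos h1
    (fun v => ((1 - (((Ideal.absNorm v.asIdeal : ℝ) ^ (-s) : ℝ) : ℂ))⁻¹) ^ k)
    (((1 - (((Ideal.absNorm q.asIdeal : ℝ) ^ (-s) : ℝ) : ℂ))⁻¹) ^ k)
    (fun v hv => by rw [h2 v hv])
  rw [pow_one] at h3
  exact h3

end XZfN

open XZfN in
theorem prf_ZfN : ZfN := by
  intro hEG hSm hEul hOv hCh1 hCh2 hOr L F E _ _ _ _ _ _ _ _ p hpF hp2 k n hk hnk hE hFn hSE hSF
    hTE hTF s hs
  have hp : p.Prime := hpF.out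
  have hp3 : 3 ≤ p := by
    have := hp.two_le
    omega
  have hk0 : 0 < k := hk.pos
  -- Euler products
  have e1 : ∀ (M : Type) [Field M] [NumberField M],
      HasProd (fun v : HeightOneSpectrum (𝓞 M) =>
        (1 - (((Ideal.absNorm v.asIdeal : ℝ) ^ (-s) : ℝ) : ℂ))⁻¹) ((zK M s : ℝ) : ℂ) := by
    intro M _ _
    have h1 := hEG hSm hEul hOv M (fun _ => 1) rfl (fun _ _ => (one_mul 1).symm)
      (fun _ => by simp) s hs
    have h2 : LI M (fun _ => 1) s = ((zK M s : ℝ) : ℂ) := by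
      unfold LI zK
      rw [Complex.ofReal_tsum]
      simp
    rw [h2] at h1
    simpa only [one_mul] using h1
  have e2 : ∀ χ : DirichletCharacter ℂ p, HasProd (fun v : HeightOneSpectrum (𝓞 L) =>
      (1 - χ (Ideal.absNorm v.asIdeal : ZMod p) *
        (((Ideal.absNorm v.asIdeal : ℝ) ^ (-s) : ℝ) : ℂ))⁻¹) (LI L (chN L p χ) s) := by
    intro χ
    refine hEG hSm hEul hOv L (chN L p χ) ?_ ?_ ?_ s hs
    · simp [chN]
    · intro I J
      simp [chN]
    · intro I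
      exact χ.norm_le_one _
  -- local factors
  set gE : HeightOneSpectrum (𝓞 L) → ℂ := fun q =>
    if (Ideal.absNorm q.asIdeal : ZMod p) = 0 then
      ((1 - (((Ideal.absNorm q.asIdeal : ℝ) ^ (-s) : ℝ) : ℂ))⁻¹) ^ k
    else (∏ χ : DirichletCharacter ℂ p, (1 - (χ ^ k) (Ideal.absNorm q.asIdeal : ZMod p) *
        (((Ideal.absNorm q.asIdeal : ℝ) ^ (-s) : ℝ) : ℂ)))⁻¹ with hgE
  set gF : HeightOneSpectrum (𝓞 L) → ℂ := fun q =>
    if (Ideal.absNorm q.asIdeal : ZMod p) = 0 then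
      ((1 - (((Ideal.absNorm q.asIdeal : ℝ) ^ (-s) : ℝ) : ℂ))⁻¹) ^ k
    else (∏ χ ∈ evenC p, (1 - (χ ^ k) (Ideal.absNorm q.asIdeal : ZMod p) *
        (((Ideal.absNorm q.asIdeal : ℝ) ^ (-s) : ℝ) : ℂ)))⁻¹ with hgF
  have hPE : HasProd gE (((zK E s : ℝ) : ℂ) ^ k) := by
    refine XZf.fib L E _ _ (hasProd_pow (e1 E) k) gE fun q => ?_
    by_cases h0 : (Ideal.absNorm q.asIdeal : ZMod p) = 0
    · have h1 := hTE q (XZf.mem_of_dvd L p q h0)
      rw [hgE]
      simp only [if_pos h0]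
      exact locp q s k h1.1 h1.2
    · obtain ⟨a, ha⟩ : ∃ a : (ZMod p)ˣ, (a : ZMod p) = (Ideal.absNorm q.asIdeal : ZMod p) :=
        ⟨Units.mk0 _ h0, rfl⟩
      have h1 := hSE q a (orderOf (a ^ k)) ha (hOr p a k hk0).1
      have h2 := loc q s k (orderOf (a ^ k)) (p - 1) (orderOf_pos _) (by omega)
        (by rw [← hnk, ← hE, ← h1.1]; ring) h1.2
      rw [← hCh1 p (a ^ k)] at h2
      rw [hgE]
      simp only [if_neg h0]
      rw [← ha]
      simp only [chi_pow]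
      exact h2
  have hPF : HasProd gF (((zK F s : ℝ) : ℂ) ^ k) := by
    refine XZf.fib L F _ _ (hasProd_pow (e1 F) k) gF fun q => ?_
    by_cases h0 : (Ideal.absNorm q.asIdeal : ZMod p) = 0
    · have h1 := hTF q (XZf.mem_of_dvd L p q h0)
      rw [hgF]
      simp only [if_pos h0]
      exact locp q s k h1.1 h1.2
    · obtain ⟨a, ha⟩ : ∃ a : (ZMod p)ˣ, (a : ZMod p) = (Ideal.absNorm q.asIdeal : ZMod p) :=
        ⟨Units.mk0 _ h0, rfl⟩
      obtain ⟨f', hf'⟩ : ∃ f' : ℕ,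
          f' = (if Even (orderOf (a ^ k)) then orderOf (a ^ k) / 2 else orderOf (a ^ k)) :=
        ⟨_, rfl⟩
      have h3 := (hOr p a k hk0).2 hk
      rw [← hf'] at h3
      have h1 := hSF q a f' ha h3
      have hf0 : 0 < f' := by
        rcases Nat.eq_zero_or_pos f' with h | h
        · rw [h, zero_mul] at h3
          have := orderOf_pos a
          omega
        · exact h
      have hcard : (above L F q).ncard * k * f' = (p - 1) / 2 := by
        have h4 : (above L F q).ncard * k * f' * 2 = p - 1 := by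
          rw [← hnk, ← hFn, ← h1.1]
          ring
        omega
      have h2 := loc q s k f' ((p - 1) / 2) hf0 (by omega) hcard h1.2
      rw [← hCh2 p hp2 (a ^ k) _ f' hf'] at h2
      rw [hgF]
      simp only [if_neg h0]
      rw [← ha]
      simp only [chi_pow]
      exact h2
  have hO : HasProd (fun q : HeightOneSpectrum (𝓞 L) => ∏ χ ∈ oddC p,
      (1 - (χ ^ k) (Ideal.absNorm q.asIdeal : ZMod p) *
        (((Ideal.absNorm q.asIdeal : ℝ) ^ (-s) : ℝ) : ℂ))⁻¹)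
      (∏ χ ∈ oddC p, LI L (chN L p (χ ^ k)) s) := hasProd_prod fun χ _ => e2 (χ ^ k)
  have hFO := hPF.mul hO
  refine hPE.unique ?_
  convert hFO using 2 with q
  rw [hgE, hgF]
  by_cases h0 : (Ideal.absNorm q.asIdeal : ZMod p) = 0
  · simp only [if_pos h0]
    rw [h0]
    have h1 : ∀ χ : DirichletCharacter ℂ p, (χ ^ k) (0 : ZMod p) = 0 := fun χ =>
      (χ ^ k).map_nonunit not_isUnit_zero
    rw [Finset.prod_congr rfl (fun χ _ => by rw [h1 χ, zero_mul, sub_zero, inv_one])]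
    simp
  · simp only [if_neg h0]
    rw [← XZf.prod_split p, Finset.prod_inv_distrib, mul_inv]

end Pool.Agent.Work.MP_59f3ad_nt.US.N
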