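import Pool.Agent.Work.MP_59f3ad_nt.US.N.I_AsB
import Pool.Agent.Work.MP_59f3ad_nt.US.N.I_AsN
import Pool.Agent.Work.MP_59f3ad_nt.US.N.I_Cy
import Pool.Agent.Work.MP_59f3ad_nt.US.N.I_CyG
import Pool.Agent.Work.MP_59f3ad_nt.US.N.I_De
import Pool.Agent.Work.MP_59f3ad_nt.US.N.I_DfN
import Pool.Agent.Work.MP_59f3ad_nt.US.N.I_KpN
import Pool.Agent.Work.MP_59f3ad_nt.US.N.I_Or
import Pool.Agent.Work.MP_59f3ad_nt.US.N.I_Pv
import Pool.Agent.Work.MP_59f3ad_nt.US.N.I_RLN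
import Pool.Agent.Work.MP_59f3ad_nt.US.N.I_Rd
import Pool.Agent.Work.MP_59f3ad_nt.US.N.I_Sg
import Pool.Agent.Work.MP_59f3ad_nt.US.N.I_SgQ
import Pool.Agent.Work.MP_59f3ad_nt.US.N.I_TAN
import Pool.Agent.Work.MP_59f3ad_nt.US.N.I_TBN
import Pool.Agent.Work.MP_59f3ad_nt.US.N.I_Tr
import Pool.Agent.Work.MP_59f3ad_nt.US.N.I_ZfN
import Pool.Agent.Work.MP_59f3ad_nt.US.H.All

/-!
# Uniform Schneider, part N: the class number bounds for the intermediate fields of `L(μ_p)`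
-/

set_option autoImplicit false

open NumberField IsDedekindDomain
open Pool.Agent.Work.MP_59f3ad_nt.US.H

namespace Pool.Agent.Work.MP_59f3ad_nt.US.N

/-- Theorem A', the class number: if `p^k` divides the class number of a subfield `E` of `L(μ_p)` of
degree `n` over `L`, then `k ≤ ((n-1)/2 + ε n) [L : ℚ]` for all primes `p ≥ p₀(L, ε)`. -/
theorem thmAN (L : Type) [Field L] [NumberField L] (ε : ℝ) (hε : 0 < ε) :
    ∃ p₀ : ℕ, ∀ p : ℕ, p.Prime → p₀ ≤ p → ∀ (E K : Type) [Field E] [NumberField E] [Field K]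
      [NumberField K] [Algebra L E] [Algebra E K] [Algebra L K] [IsScalarTower L E K],
      IsCyclotomicExtension {p} L K → ∀ k : ℕ, p ^ k ∣ classNumber E →
        (k : ℝ) ≤ (((Module.finrank L E : ℝ) - 1) / 2 + ε * Module.finrank L E) *
          Module.finrank ℚ L :=
  prf_TAN prf_Eul prf_Ov prf_Cl prf_Dc prf_Rm prf_Rd (prf_De prf_Pv prf_Tr) prf_AsN L ε hε

/-- Theorem B', the relative class number. -/
theorem thmBN (hLB : LB) (L : Type) [Field L] [NumberField L] (hL : IsTotallyReal L) (ε : ℝ)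
    (hε : 0 < ε) :
    ∃ p₀ : ℕ, ∀ p : ℕ, p.Prime → p₀ ≤ p → ∀ (E K : Type) [Field E] [NumberField E] [Field K]
      [NumberField K] [Algebra L E] [Algebra E K] [Algebra L K] [IsScalarTower L E K],
      IsCyclotomicExtension {p} L K → Odd (Module.finrank E K) → ∀ _ : IsCMField E, ∀ (k : ℕ)
      (H : Subgroup (ClassGroup (𝓞 E))), H.index = p ^ k →
      (∀ (I : Ideal (𝓞 (maximalRealSubfield E))) (J : nonZeroDivisors (Ideal (𝓞 E))),
        (J : Ideal (𝓞 E)) = I.map (algebraMap (𝓞 (maximalRealSubfield E)) (𝓞 E)) →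
        ClassGroup.mk0 J ∈ H) →
      (k : ℝ) ≤ (1 / 4 + ε) * Module.finrank L E * Module.finrank ℚ L :=
  prf_TBN prf_Eul prf_Ov prf_Sm prf_EG prf_Rs prf_Dc prf_Ch1 prf_Ch2 prf_KD prf_Sp1 prf_Rm hLB
    prf_RL prf_Hr prf_To prf_KR prf_Rd (prf_De prf_Pv prf_Tr) prf_Cy prf_CyG prf_Sg prf_SgQ prf_Or prf_ZfN prf_KpN
    prf_RLN prf_DfN prf_AsB L hL ε hε

end Pool.Agent.Work.MP_59f3ad_nt.US.N
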