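import Pool.Agent.Work.MP_59f3ad_nt.US.N.Stmts
import Pool.Agent.Work.MP_59f3ad_nt.US.H.I_As2

/-!
# Uniform Schneider, part N, item AsB: asymptotics of (b), uniform in `n`
-/

set_option autoImplicit false

open NumberField IsDedekindDomain Filter Topology

namespace Pool.Agent.Work.MP_59f3ad_nt.US.N

open Pool.Agent.Work.MP_59f3ad_nt.US.H

/-- Item AsB. -/
theorem prf_AsB : AsB := by
  intro d D C hd hD hC ε hε
  obtain ⟨C', hC'⟩ : ∃ C' : ℝ, C' = max C 1 := ⟨_, rfl⟩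
  have hC1 : 1 ≤ C' := by rw [hC']; exact le_max_right _ _
  have hCC : C ≤ C' := by rw [hC']; exact le_max_left _ _
  have hd1 : (1 : ℝ) ≤ d := by exact_mod_cast hd
  have hD1 : (1 : ℝ) ≤ D := by exact_mod_cast hD
  obtain ⟨A, hA⟩ : ∃ A : ℝ, A = Real.log 8 + 2 * Real.log d + 2 + Real.log D / 4 + Real.log C' :=
    ⟨_, rfl⟩
  obtain ⟨p₁, hp₁⟩ := XAs2.ev A ε hε
  refine ⟨p₁, ?_⟩
  intro p hp hpp n k h h' w δ hn hh' h1 h2 h3 h4
  have hp2 : 2 ≤ p := hp.two_le
  have hp2r : (2 : ℝ) ≤ p := by exact_mod_cast hp2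
  have hp0 : (0 : ℝ) < p := by linarith
  have hn1 : (1 : ℝ) ≤ n := by exact_mod_cast hn
  have hn0 : (0 : ℝ) < n := by linarith
  obtain ⟨lp, hlp⟩ : ∃ lp : ℝ, lp = Real.log p := ⟨_, rfl⟩
  have hev := hp₁ p hpp
  rw [← hlp] at hev h4
  have hlp0 : 0 < lp := by rw [hlp]; exact Real.log_pos (by linarith)
  have hln : Real.log n ≤ n := by
    have := Real.log_le_sub_one_of_pos hn0
    linarith
  have hln0 : 0 ≤ Real.log n := Real.log_nonneg hn1
  -- the discriminant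
  have hX : D ^ n * p ^ ((n - 1) * d) * δ ≤ D ^ n * p ^ (n * d) := by
    have e2 : p ^ ((n - 1) * d) * δ ≤ p ^ (n * d) := by
      calc p ^ ((n - 1) * d) * δ ≤ p ^ ((n - 1) * d) * p ^ d := Nat.mul_le_mul_left _ h3
        _ = p ^ ((n - 1) * d + d) := by rw [pow_add]
        _ ≤ p ^ (n * d) := by
          apply Nat.pow_le_pow_right (by omega)
          calc (n - 1) * d + d = (n - 1 + 1) * d := by ring
            _ ≤ n * d := Nat.mul_le_mul_right _ (by omega)
    rw [mul_assoc]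
    exact Nat.mul_le_mul_left _ e2
  have hXr : (((D ^ n * p ^ ((n - 1) * d) : ℕ) : ℝ) * (δ : ℝ)) ≤
      (D : ℝ) ^ n * (p : ℝ) ^ (n * d) := by exact_mod_cast hX
  have hw : (w : ℝ) ≤ 2 * ((n : ℝ) * d) ^ 2 := by exact_mod_cast h2
  have hY : (C * (1 + lp)) ^ (n / 2) ≤ (C' * (1 + lp)) ^ n := by
    have e1 : C * (1 + lp) ≤ C' * (1 + lp) := mul_le_mul_of_nonneg_right hCC (by linarith)
    have e2 : 1 ≤ C' * (1 + lp) := one_le_mul_of_one_le_of_one_le hC1 (by linarith)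
    exact (pow_le_pow_left₀ (by positivity) e1 _).trans (pow_le_pow_right₀ e2 (by omega))
  have hh0 : (0 : ℝ) < h' := by exact_mod_cast hh'
  have h5 : (p : ℝ) ^ k * h' ≤ 2 * h := by exact_mod_cast h1
  have h6 : (p : ℝ) ^ k ≤ 4 * w *
      (((D ^ n * p ^ ((n - 1) * d) : ℕ) : ℝ) * (δ : ℝ)) ^ (1 / 4 : ℝ) *
        (C * (1 + lp)) ^ (n / 2) := by
    refine le_of_mul_le_mul_right ?_ hh0
    calc (p : ℝ) ^ k * h' ≤ 2 * h := h5
      _ ≤ 2 * (2 * w * (((D ^ n * p ^ ((n - 1) * d) : ℕ) : ℝ) * (δ : ℝ)) ^ (1 / 4 : ℝ) *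
          (C * (1 + lp)) ^ (n / 2) * h') := by linarith
      _ = _ := by ring
  have key : (p : ℝ) ^ k ≤ 8 * ((n : ℝ) * d) ^ 2 *
      ((D : ℝ) ^ n * (p : ℝ) ^ (n * d)) ^ (1 / 4 : ℝ) * (C' * (1 + lp)) ^ n := by
    refine h6.trans ?_
    have e1 : (4 * w : ℝ) ≤ 8 * ((n : ℝ) * d) ^ 2 := by linarith
    have e2 := Real.rpow_le_rpow (by positivity) hXr (by norm_num : (0 : ℝ) ≤ 1 / 4)
    exact mul_le_mul (mul_le_mul e1 e2 (by positivity) (by positivity)) hY (by positivity)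
      (by positivity)
  have hl := Real.log_le_log (by positivity) key
  have hd0 : (0 : ℝ) < d := by linarith
  have hD0 : (0 : ℝ) < D := by linarith
  have hC0 : (0 : ℝ) < C' := by linarith
  have h1lp : (0 : ℝ) < 1 + lp := by linarith
  have e1 : Real.log (8 * ((n : ℝ) * d) ^ 2 *
      ((D : ℝ) ^ n * (p : ℝ) ^ (n * d)) ^ (1 / 4 : ℝ) * (C' * (1 + lp)) ^ n) =
      Real.log 8 + 2 * (Real.log n + Real.log d) + 1 / 4 * (n * Real.log D + (n * d : ℕ) * lp) +
        n * (Real.log C' + Real.log (1 + lp)) := by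
    rw [Real.log_mul (by positivity) (by positivity), Real.log_mul (by positivity) (by positivity),
      Real.log_mul (by positivity) (by positivity), Real.log_pow, Real.log_pow,
      Real.log_rpow (by positivity), Real.log_mul hn0.ne' hd0.ne',
      Real.log_mul (by positivity) (by positivity), Real.log_pow, Real.log_pow,
      Real.log_mul hC0.ne' h1lp.ne', ← hlp]
    push_cast
    ring
  rw [e1, Real.log_pow, ← hlp] at hl
  push_cast at hl
  have hld : 0 ≤ Real.log d := Real.log_nonneg hd1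
  have hlD : 0 ≤ Real.log D := Real.log_nonneg hD1
  have hl8 : 0 ≤ Real.log 8 := Real.log_nonneg (by norm_num)
  have h7 : (k : ℝ) * lp ≤ 1 / 4 * (n * d) * lp + n * (A + Real.log (1 + lp)) := by
    rw [hA]
    have e2 : Real.log 8 + 2 * Real.log d ≤ n * (Real.log 8 + 2 * Real.log d) :=
      le_mul_of_one_le_left (by linarith) (by linarith)
    nlinarith
  have h8 : (k : ℝ) * lp ≤ ((1 / 4 + ε) * n * d) * lp := by
    have e2 : (n : ℝ) * (A + Real.log (1 + lp)) ≤ n * (ε * lp) :=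
      mul_le_mul_of_nonneg_left hev hn0.le
    have e3 : (n : ℝ) * (ε * lp) ≤ n * (ε * lp) * d :=
      le_mul_of_one_le_right (by positivity) hd1
    nlinarith
  exact le_of_mul_le_mul_right h8 hlp0

end Pool.Agent.Work.MP_59f3ad_nt.US.N
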