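import Pool.Agent.Work.MP_59f3ad_nt.US.N.Stmts
import Pool.Agent.Work.MP_59f3ad_nt.US.H.I_RL

/-!
# Item RLN: the intermediate fields of `L(μ_p)` of odd codegree are CM fields
-/

set_option autoImplicit false

open NumberField IsDedekindDomain Filter Topology Polynomial

namespace Pool.Agent.Work.MP_59f3ad_nt.US.N

open Pool.Agent.Work.MP_59f3ad_nt.US.H

namespace XRLN

section

variable {E : Type} [Field E] [NumberField E] (σ : E ≃+* E)

theorem mem_iff (hφ : ∀ (φ : E →+* ℂ) (x : E), φ (σ x) = star (φ x)) (x : E) :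
    x ∈ maximalRealSubfield E ↔ σ x = x := by
  constructor
  · intro h
    obtain ⟨φ⟩ : Nonempty (E →+* ℂ) := inferInstance
    apply φ.injective
    rw [hφ]
    exact h φ
  · intro h φ
    rw [← hφ, h]

theorem finrank_two (hinv : ∀ x, σ (σ x) = x) (hne : ∃ x, σ x ≠ x)
    (hφ : ∀ (φ : E →+* ℂ) (x : E), φ (σ x) = star (φ x)) :
    Module.finrank (maximalRealSubfield E) E = 2 := by
  obtain ⟨θ, hθ⟩ := hne
  set δ : E := θ - σ θ with hδ
  have hδ0 : δ ≠ 0 := sub_ne_zero.2 (Ne.symm hθ)
  have hσδ : σ δ = -δ := by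
    rw [hδ, map_sub, hinv]
    ring
  have h2 : (2 : E) ≠ 0 := two_ne_zero
  set F := maximalRealSubfield E with hF
  have htop : IntermediateField.adjoin F ({δ} : Set E) = ⊤ := by
    rw [eq_top_iff]
    intro x _
    have ha : (x + σ x) / 2 ∈ F := by
      rw [hF, mem_iff σ hφ, map_div₀, map_add, hinv, map_ofNat, add_comm]
    have hb : (x - σ x) / (2 * δ) ∈ F := by
      rw [hF, mem_iff σ hφ, map_div₀, map_sub, hinv, map_mul, map_ofNat, hσδ]
      field_simp
      ring
    have hx : x = algebraMap F E ⟨_, ha⟩ + algebraMap F E ⟨_, hb⟩ * δ := by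
      show x = (x + σ x) / 2 + (x - σ x) / (2 * δ) * δ
      field_simp
      ring
    rw [hx]
    exact add_mem ((IntermediateField.adjoin F ({δ} : Set E)).algebraMap_mem _)
      (mul_mem ((IntermediateField.adjoin F ({δ} : Set E)).algebraMap_mem _)
        (IntermediateField.subset_adjoin F _ (Set.mem_singleton _)))
  have hint : IsIntegral F δ := Algebra.IsIntegral.isIntegral δ
  have hdeg : Module.finrank F E = (minpoly F δ).natDegree := by
    rw [← IntermediateField.adjoin.finrank hint, htop, IntermediateField.finrank_top']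
  rw [hdeg]
  have hd : δ ^ 2 ∈ F := by
    rw [hF, mem_iff σ hφ, map_pow, hσδ]
    ring
  let a : F := ⟨δ ^ 2, hd⟩
  let g : F[X] := X ^ 2 - C a
  have hg : aeval δ g = 0 := by
    simp only [g, map_sub, map_pow, aeval_X, aeval_C]
    have : algebraMap F E a = δ ^ 2 := rfl
    rw [this, sub_self]
  have hgd : g.natDegree = 2 := by
    simp only [g]
    compute_degree!
  have hg0 : g ≠ 0 := by
    intro h0
    rw [h0] at hgd
    simp at hgd
  have hle : (minpoly F δ).natDegree ≤ 2 := by
    rw [← hgd]
    exact natDegree_le_of_dvd (minpoly.dvd F δ hg) hg0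
  have hpos : 0 < (minpoly F δ).natDegree := minpoly.natDegree_pos hint
  have hne1 : (minpoly F δ).natDegree ≠ 1 := by
    intro h1
    obtain ⟨y, hy⟩ := minpoly.natDegree_eq_one_iff.mp h1
    have h3 : δ ∈ maximalRealSubfield E := by
      rw [← hy]
      exact y.2
    rw [mem_iff σ hφ, hσδ] at h3
    exact hδ0 (by simpa [neg_eq_iff_add_eq_zero, ← two_mul] using h3)
  omega

theorem cm_of (hinv : ∀ x, σ (σ x) = x) (hne : ∃ x, σ x ≠ x)
    (hφ : ∀ (φ : E →+* ℂ) (x : E), φ (σ x) = star (φ x)) : IsCMField E := by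
  have hTC : IsTotallyComplex E := by
    refine ⟨fun v => ?_⟩
    rw [InfinitePlace.isComplex_iff]
    intro hreal
    obtain ⟨θ, hθ⟩ := hne
    have h2 := RingHom.congr_fun (ComplexEmbedding.isReal_iff.mp hreal) θ
    rw [ComplexEmbedding.conjugate_coe_eq] at h2
    apply hθ
    apply v.embedding.injective
    rw [hφ]
    exact h2
  have : Algebra.IsQuadraticExtension (maximalRealSubfield E) E :=
    { finrank_eq_two' := finrank_two σ hinv hne hφ }
  exact {}

end

end XRLN

/-- Item RLN. -/
theorem prf_RLN : RLN := by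
  intro hRL L E K _ _ _ _ _ _ _ _ _ _ p _ hp2 hc hL hodd
  refine ⟨?_, fun x => XRL.base_mem x⟩
  obtain ⟨hCM, hmem, -⟩ := hRL L K p hp2 hc hL
  have hab : IsAbelianGalois L K := IsCyclotomicExtension.isAbelianGalois {p} L K
  have hEab : IsAbelianGalois L E := IsAbelianGalois.tower_bot L E K
  have hKE : IsAbelianGalois E K := IsAbelianGalois.tower_top L E K
  have hfd : FiniteDimensional E K := Module.Finite.of_restrictScalars_finite ℚ E K
  let c : K ≃+* K := (IsCMField.complexConj K).toRingEquiv
  have hcc : ∀ x, c (c x) = x := fun x => IsCMField.complexConj_apply_apply K x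
  have hΦ : ∀ (Φ : K →+* ℂ) (x : K), Φ (c x) = star (Φ x) := fun Φ x =>
    IsCMField.complexEmbedding_complexConj K Φ x
  let cL : K ≃ₐ[L] K := AlgEquiv.ofRingEquiv (f := c) fun r =>
    (IsCMField.complexConj_eq_self_iff K _).2 (hmem r)
  let cE : E ≃ₐ[L] E := cL.restrictNormal E
  have hcomm : ∀ x, algebraMap E K (cE x) = c (algebraMap E K x) := fun x =>
    AlgEquiv.restrictNormal_commutes cL E x
  have hinj : Function.Injective (algebraMap E K) := (algebraMap E K).injective
  refine XRLN.cm_of cE.toRingEquiv (fun x => ?_) ?_ (fun φ x => ?_)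
  · apply hinj
    show algebraMap E K (cE (cE x)) = _
    rw [hcomm, hcomm, hcc]
  · by_contra hall
    push Not at hall
    have hfix : ∀ x, c (algebraMap E K x) = algebraMap E K x := by
      intro x
      rw [← hcomm]
      exact congrArg _ (hall x)
    let c' : K ≃ₐ[E] K := AlgEquiv.ofRingEquiv (f := c) hfix
    have h2 : orderOf c' = 2 := by
      refine orderOf_eq_prime ?_ ?_
      · ext x
        exact hcc x
      · intro h1
        apply IsCMField.complexConj_ne_one K
        ext x
        exact DFunLike.congr_fun h1 x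
    have h3 := orderOf_dvd_natCard c'
    rw [h2, IsGalois.card_aut_eq_finrank] at h3
    exact (Nat.not_even_iff_odd.2 hodd) (even_iff_two_dvd.2 h3)
  · have h1 := hΦ (ComplexEmbedding.lift K φ) (algebraMap E K x)
    rw [← hcomm, ComplexEmbedding.lift_algebraMap_apply,
      ComplexEmbedding.lift_algebraMap_apply] at h1
    exact h1

end Pool.Agent.Work.MP_59f3ad_nt.US.N
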